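import Pool.Agent.Lib.helper8.Kneser2

set_option linter.unusedSectionVars false

open Finset
open scoped Pointwise

namespace Pool.Agent.H.MP_e67b39_co

open Pool.Agent.Lib.helper8.Kneser

variable {G : Type} [AddCommGroup G] [Fintype G] [DecidableEq G]

/-- `g` is not a sum of three distinct elements of `A` -/
def R (A : Finset G) (g : G) : Prop :=
  ∀ a ∈ A, ∀ b ∈ A, ∀ c ∈ A, a ≠ b → a ≠ c → b ≠ c → a + b + c ≠ g

lemma R.mono {A B : Finset G} {g : G} (h : R A g) (hB : B ⊆ A) : R B g :=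
  fun a ha b hb c hc => h a (hB ha) b (hB hb) c (hB hc)

lemma memc {H : Finset G} {x y : G} (h : x ∈ H) (e : y = x) : y ∈ H := e ▸ h

lemma pair {H Y1 Y2 E : Finset G} (hH : IsSub H) {c1 c2 s : G} (h1 : Y1 ⊆ cs c1 H)
    (h2 : Y2 ⊆ cs c2 H) (hs : s - c1 - c2 ∈ H) (hE : E ⊆ cs c1 H)
    (hE' : ∀ x ∈ E, x ∉ Y1 ∧ s - x ∉ Y2) :
    Y1.card + Y2.card + E.card ≤ H.card + (Y1.filter fun x => s - x ∈ Y2).card := by
  have e1 : (Y2.image fun x => s - x).card = Y2.card :=
    card_image_of_injective _ sub_right_injective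
  have e2 : (Y1.filter fun x => s - x ∈ Y2) = Y1 ∩ Y2.image fun x => s - x := by
    ext x
    simp only [mem_filter, mem_inter, mem_image]
    refine and_congr_right fun _ => ⟨fun h => ⟨_, h, by abel⟩, ?_⟩
    rintro ⟨y, hy, rfl⟩
    simpa using hy
  have e3 := card_union_add_card_inter Y1 (Y2.image fun x => s - x)
  have e4 : Disjoint (Y1 ∪ Y2.image fun x => s - x) E := by
    rw [disjoint_right]
    intro x hx hx'
    rcases mem_union.1 hx' with h | h
    · exact (hE' x hx).1 h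
    · obtain ⟨y, hy, rfl⟩ := mem_image.1 h
      exact (hE' _ hx).2 (by simpa using hy)
  have e5 : (Y1 ∪ Y2.image fun x => s - x) ∪ E ⊆ cs c1 H := by
    refine union_subset (union_subset h1 fun x hx => ?_) hE
    obtain ⟨y, hy, rfl⟩ := mem_image.1 hx
    exact mem_cs.2 (memc (hH.sub hs (mem_cs.1 (h2 hy))) (by abel))
  have e6 := card_le_card e5
  rw [card_union_of_disjoint e4, card_cs] at e6
  rw [e2]
  omega

lemma kn3 (X Y Z : Finset G) (hX : X.Nonempty) (hY : Y.Nonempty) (hZ : Z.Nonempty) :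
    (X + st (X + Y + Z)).card + (Y + st (X + Y + Z)).card + (Z + st (X + Y + Z)).card ≤
      (X + Y + Z).card + 2 * (st (X + Y + Z)).card := by
  set H := st (X + Y + Z) with hH
  have sH : IsSub H := st_sub _
  have k1 := kneser (X + Y) Z (hX.add hY) hZ
  rw [← hH] at k1
  have k2 := kneser (X + H) (Y + H) (hX.add ⟨0, sH.zero⟩) (hY.add ⟨0, sH.zero⟩)
  have hh : H + H = H := (sH.per Subset.rfl).add_eq sH
  have e1 : X + H + (Y + H) = X + Y + H := by rw [add_add_add_comm, hh]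
  have e2 : st (X + Y + H) = H := by
    refine Subset.antisymm ?_ (per_iff.1 (per_add sH _))
    have := st_mono (X + Y + H) Z
    rwa [add_right_comm (X + Y) H Z, (per_st _).add_eq sH] at this
  rw [e1, e2, (per_add sH X).add_eq sH, (per_add sH Y).add_eq sH] at k2
  omega

lemma st_sub_cs {S H : Finset G} (hH : IsSub H) {c : G} (hS : S ⊆ cs c H) (hne : S.Nonempty) :
    st S ⊆ H := by
  intro g hg
  obtain ⟨x, hx⟩ := hne
  exact memc (hH.sub (mem_cs.1 (hS (mem_st.1 hg x hx))) (mem_cs.1 (hS hx))) (by abel)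

lemma miss {S H : Finset G} (hH : IsSub H) {c g : G} (hS : S ⊆ cs c H) (hne : S.Nonempty)
    (hg : g - c ∈ H) (hn : g ∉ S) : S.card + (st S).card ≤ H.card := by
  have e4 : Disjoint S (cs g (st S)) := by
    rw [disjoint_left]
    intro x hx hx'
    exact hn (memc (mem_st.1 ((st_sub S).neg (mem_cs.1 hx')) x hx) (by abel))
  have e5 : S ∪ cs g (st S) ⊆ cs c H := by
    refine union_subset hS fun x hx => mem_cs.2 ?_
    exact memc (hH.add (st_sub_cs hH hS hne (mem_cs.1 hx)) hg) (by abel)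
  have e6 := card_le_card e5
  rwa [card_union_of_disjoint e4, card_cs, card_cs] at e6

lemma add3_sub {X Y Z H : Finset G} (hH : IsSub H) {a b c : G} (hX : X ⊆ cs a H)
    (hY : Y ⊆ cs b H) (hZ : Z ⊆ cs c H) : X + Y + Z ⊆ cs (a + b + c) H := by
  intro w hw
  obtain ⟨u, hu, z, hz, rfl⟩ := mem_add.1 hw
  obtain ⟨x, hx, y, hy, rfl⟩ := mem_add.1 hu
  exact mem_cs.2 (memc (hH.add (hH.add (mem_cs.1 (hX hx)) (mem_cs.1 (hY hy))) (mem_cs.1 (hZ hz)))
    (by abel))

/-- Kneser for three sets in cosets of `H` whose sum misses a point -/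
lemma kn {X Y Z H : Finset G} (hH : IsSub H) {a b c g : G} (hX : X ⊆ cs a H)
    (hY : Y ⊆ cs b H) (hZ : Z ⊆ cs c H) (nX : X.Nonempty) (nY : Y.Nonempty) (nZ : Z.Nonempty)
    (hg : g - (a + b + c) ∈ H) (hn : ∀ x ∈ X, ∀ y ∈ Y, ∀ z ∈ Z, x + y + z ≠ g) :
    ∃ J : Finset G, IsSub J ∧ J ⊆ H ∧ J = st (X + Y + Z) ∧
      (∀ x ∈ X, ∀ y ∈ Y, ∀ z ∈ Z, x + y + z - g ∉ J) ∧ (X + Y + Z).card + J.card ≤ H.card ∧
      (X + J).card + (Y + J).card + (Z + J).card ≤ (X + Y + Z).card + 2 * J.card := by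
  have hs := add3_sub hH hX hY hZ
  have hne := (nX.add nY).add nZ
  have hn' : g ∉ X + Y + Z := by
    intro hw
    obtain ⟨u, hu, z, hz, e⟩ := mem_add.1 hw
    obtain ⟨x, hx, y, hy, rfl⟩ := mem_add.1 hu
    exact hn x hx y hy z hz e
  refine ⟨_, st_sub _, st_sub_cs hH hs hne, rfl, ?_, miss hH hs hne hg hn', kn3 X Y Z nX nY nZ⟩
  intro x hx y hy z hz h
  exact hn' (memc (mem_st.1 ((st_sub _).neg h) _ (add_mem_add (add_mem_add hx hy) hz)) (by abel))

lemma lemY {H Y : Finset G} (hH : IsSub H) {c g : G} (hY : Y ⊆ cs c H) (hg : g - 3 • c ∈ H)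
    (hc : H.card + 3 ≤ 2 * Y.card) (hR : R Y g) :
    2 * Y.card = H.card + 3 ∧
      ∀ a ∈ Y, ∀ w ∈ cs c H \ Y, ∀ w' ∈ cs c H \ Y, a + w + w' ≠ g := by
  have hs : ∀ a ∈ Y, g - a - c - c ∈ H := fun a ha =>
    memc (hH.sub hg (mem_cs.1 (hY ha))) (by abel)
  have h1 : ∀ a ∈ Y, ∀ x ∈ Y.erase a, g - a - x ∈ Y.erase a → x + x = g - a := by
    intro a ha x hx hx'
    by_contra hne
    refine hR a ha x (mem_of_mem_erase hx) _ (mem_of_mem_erase hx') (ne_of_mem_erase hx).symm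
      (ne_of_mem_erase hx').symm (fun e => hne ?_) (by abel)
    exact eq_sub_iff_add_eq.1 e
  have h2 : ∀ a ∈ Y, 2 * Y.card ≤ H.card + 2 +
      ((Y.erase a).filter fun x => g - a - x ∈ Y.erase a).card := by
    intro a ha
    have := pair hH ((erase_subset a Y).trans hY) ((erase_subset a Y).trans hY) (hs a ha)
      (empty_subset _) (by simp)
    rw [card_erase_of_mem ha] at this
    have := card_pos.2 ⟨a, ha⟩
    omega
  have h3 : Y ⊆ Y.image fun x => g - (x + x) := by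
    intro a ha
    have := h2 a ha
    obtain ⟨x, hx⟩ := card_pos.1 (show 0 <
      ((Y.erase a).filter fun x => g - a - x ∈ Y.erase a).card by omega)
    obtain ⟨hx1, hx2⟩ := mem_filter.1 hx
    exact mem_image.2 ⟨x, mem_of_mem_erase hx1, by rw [h1 a ha x hx1 hx2]; abel⟩
  have h4 : Set.InjOn (fun x => g - (x + x)) Y :=
    card_image_iff.1 (le_antisymm card_image_le (card_le_card h3))
  have h5 : ∀ a ∈ Y, ((Y.erase a).filter fun x => g - a - x ∈ Y.erase a).card ≤ 1 := by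
    intro a ha
    rw [card_le_one]
    intro x hx y hy
    obtain ⟨hx1, hx2⟩ := mem_filter.1 hx
    obtain ⟨hy1, hy2⟩ := mem_filter.1 hy
    refine h4 (mem_of_mem_erase hx1) (mem_of_mem_erase hy1) ?_
    simp only [h1 a ha x hx1 hx2, h1 a ha y hy1 hy2]
  obtain ⟨a0, ha0⟩ := card_pos.1 (show 0 < Y.card by omega)
  have e : 2 * Y.card = H.card + 3 := by
    have := h2 a0 ha0
    have := h5 a0 ha0
    omega
  refine ⟨e, fun a ha w hw w' hw' hsum => ?_⟩
  have h6 := pair hH hY hY (hs a ha) (E := {w}) (by simpa using (mem_sdiff.1 hw).1) (by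
    intro x hx
    rw [mem_singleton.1 hx]
    exact ⟨(mem_sdiff.1 hw).2, fun h => (mem_sdiff.1 hw').2 (memc h (by rw [← hsum]; abel))⟩)
  have h7 : (Y.filter fun x => g - a - x ∈ Y) ⊆
      insert a (insert (g - a - a) ((Y.erase a).filter fun x => g - a - x ∈ Y.erase a)) := by
    intro x hx
    obtain ⟨hx1, hx2⟩ := mem_filter.1 hx
    by_cases e1 : x = a
    · simp [e1]
    by_cases e2 : g - a - x = a
    · refine mem_insert_of_mem (mem_insert.2 (Or.inl ?_))
      rw [← e2]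
      nth_rewrite 1 [e2]
      abel
    exact mem_insert_of_mem (mem_insert_of_mem
      (mem_filter.2 ⟨mem_erase.2 ⟨e1, hx1⟩, mem_erase.2 ⟨e2, hx2⟩⟩))
  have h8 := (card_le_card h7).trans ((card_insert_le _ _).trans
    (Nat.succ_le_succ (card_insert_le _ _)))
  have := h5 a ha
  rw [card_singleton] at h6
  omega

lemma lemY2 {H Y : Finset G} (hH : IsSub H) {c g : G} (hY : Y ⊆ cs c H) (hg : g - 3 • c ∈ H)
    (hc : H.card + 3 ≤ 2 * Y.card) (hR : R Y g) (h3 : H.card ≠ 3) :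
    ∃ J : Finset G, IsSub J ∧ J ⊆ H ∧ ∃ w, cs c H \ Y = cs w J ∧ g - 3 • w ∈ J ∧
      (J.card = 1 ∧ H.card = 5 ∨ J.card = 3 ∧ H.card = 9) := by
  obtain ⟨e, hn⟩ := lemY hH hY hg hc hR
  set W := cs c H \ Y with hW
  have cW : W.card + Y.card = H.card := by rw [hW, card_sdiff_add_card_eq_card hY, card_cs]
  have hWs : W ⊆ cs c H := sdiff_subset
  obtain ⟨w, hw⟩ := card_pos.1 (show 0 < W.card by omega)
  obtain ⟨J, sJ, hJ, -, -, k1, k2⟩ := kn hH hY hWs hWs (card_pos.1 (by omega)) ⟨w, hw⟩ ⟨w, hw⟩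
    (memc hg (by abel)) hn
  have l1 := card_le_card (sub_add sJ Y)
  have l2 := card_le_card (sub_add sJ W)
  have s1 : cs w J ⊆ W + J := fun x hx => memc (add_mem_add hw (mem_cs.1 hx)) (by abel)
  have l3 := card_le_card s1
  rw [card_cs] at l3
  have s2 : cs w J = W + J := eq_of_subset_of_card_le s1 (by rw [card_cs]; omega)
  have jp : 0 < J.card := card_pos.2 ⟨0, sJ.zero⟩
  have s3 : W = cs w J := by
    refine Subset.antisymm (s2 ▸ sub_add sJ W) fun x hx => mem_sdiff.2 ⟨?_, fun hxY => ?_⟩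
    · exact mem_cs.2 (memc (hH.add (hJ (mem_cs.1 hx)) (mem_cs.1 (hWs hw))) (by abel))
    · have : cs c H ⊆ Y + J := by
        intro y hy
        by_cases hy' : y ∈ Y
        · exact sub_add sJ Y hy'
        · have : y ∈ cs w J := s2 ▸ sub_add sJ W (mem_sdiff.2 ⟨hy, hy'⟩)
          exact memc (add_mem_add hxY (sJ.sub (mem_cs.1 this) (mem_cs.1 hx))) (by abel)
      have := card_le_card this
      rw [card_cs] at this
      omega
  refine ⟨J, sJ, hJ, w, s3, ?_, ?_⟩
  · have h1 : g - w - w ∈ W := by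
      refine mem_sdiff.2 ⟨mem_cs.2 ?_, fun h => hn _ h w hw w hw (by abel)⟩
      exact memc (hH.sub (hH.sub hg (mem_cs.1 (hWs hw))) (mem_cs.1 (hWs hw))) (by abel)
    rw [s3] at h1
    exact memc (mem_cs.1 h1) (by abel)
  · obtain ⟨m, hm⟩ := Per.dvd sJ _ _ rfl (hH.per hJ)
    have cJ : W.card = J.card := by rw [s3, card_cs]
    have : J.card ∣ 3 := by
      have h : H.card = 2 * J.card + 3 := by omega
      exact (Nat.dvd_add_right (Dvd.intro_left 2 rfl)).1 (h ▸ ⟨m, hm⟩)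
    rcases (Nat.dvd_prime Nat.prime_three).1 this with h | h <;> omega

lemma cs_sub {A H : Finset G} (hH : IsSub H) {a : G} (ha : a ∈ A + H) : cs a H ⊆ A + H :=
  fun x hx => memc (per_add hH A _ (mem_cs.1 hx) a ha) (by abel)

lemma defic1 {A H : Finset G} (hH : IsSub H) {a : G} (ha : a ∈ A + H) :
    A.card + H.card ≤ (A + H).card + (A ∩ cs a H).card := by
  have := card_union_add_card_inter A (cs a H)
  have := card_le_card (union_subset (sub_add hH A) (cs_sub hH ha))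
  have := card_cs a H
  omega

lemma cs_disj {H : Finset G} (hH : IsSub H) {a b : G} (hab : a - b ∉ H) :
    Disjoint (cs a H) (cs b H) := by
  rw [disjoint_left]
  intro x hx hx'
  exact hab (memc (hH.sub (mem_cs.1 hx') (mem_cs.1 hx)) (by abel))

lemma defic2 {A H : Finset G} (hH : IsSub H) {a b : G} (ha : a ∈ A + H) (hb : b ∈ A + H)
    (hab : a - b ∉ H) :
    A.card + 2 * H.card ≤ (A + H).card + (A ∩ cs a H).card + (A ∩ cs b H).card := by
  have h1 := card_union_add_card_inter A (cs a H ∪ cs b H)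
  have := card_le_card (union_subset (sub_add hH A) (union_subset (cs_sub hH ha) (cs_sub hH hb)))
  rw [card_union_of_disjoint (cs_disj hH hab), card_cs, card_cs, inter_union_distrib_left] at h1
  have := card_union_le (A ∩ cs a H) (A ∩ cs b H)
  omega

lemma diag {A H : Finset G} (hH : IsSub H) {g : G} (hd : (A + H).card + 3 ≤ A.card + H.card)
    (hR : R A g) {a b c : G} (ha : a ∈ A + H) (hb : b ∈ A + H) (hc : c ∈ A + H)
    (hs : a + b + c - g ∈ H) : a - b ∈ H := by
  by_contra hab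
  have h1 := defic2 hH ha hb hab
  obtain ⟨c0, hc0, h, hh, rfl⟩ := mem_add.1 hc
  have h2 := pair hH (inter_subset_right (s₁ := A) (s₂ := cs a H))
    (inter_subset_right (s₁ := A) (s₂ := cs b H)) (s := g - c0)
    (memc (hH.sub hh hs) (by abel)) (empty_subset _) (by simp)
  obtain ⟨x, hx, hx'⟩ := exists_mem_notMem_of_card_lt_card
    (show ({c0, g - c0 - c0} : Finset G).card <
      ((A ∩ cs a H).filter fun x => g - c0 - x ∈ A ∩ cs b H).card from
      lt_of_le_of_lt card_le_two (by omega))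
  obtain ⟨hx1, hx2⟩ := mem_filter.1 hx
  simp only [mem_insert, mem_singleton, not_or] at hx'
  refine hR x (mem_inter.1 hx1).1 _ (mem_inter.1 hx2).1 c0 hc0 (fun e => ?_) hx'.1
    (fun e => hx'.2 (by rw [← e]; nth_rewrite 1 [e]; abel)) (by abel)
  exact disjoint_left.1 (cs_disj hH hab) (mem_inter.1 hx1).2 (e ▸ (mem_inter.1 hx2).2)

end Pool.Agent.H.MP_e67b39_co
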