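import Pool.Agent.H.MP_e67b39_co.A

set_option linter.unusedSectionVars false

open Finset
open scoped Pointwise

namespace Pool.Agent.H.MP_e67b39_co

open Pool.Agent.Lib.helper8.Kneser

variable {G : Type} [AddCommGroup G] [Fintype G] [DecidableEq G]

lemma z3 : ∀ i : ZMod 3, i = 0 ∨ i = 1 ∨ i = 2 := by decide

lemma add_sub_of {A H Q : Finset G} (hQ : IsSub Q) (hA : A ⊆ Q) (hH : H ⊆ Q) : A + H ⊆ Q := by
  intro x hx
  obtain ⟨a, ha, h, hh, rfl⟩ := mem_add.1 hx
  exact hQ.add (hA ha) (hH hh)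

lemma step1 {Q A : Finset G} (hQ : IsSub Q) (hA : A ⊆ Q) (l : G →+ ZMod 3) {n : ℕ}
    (hf : ∀ i, (Q.filter fun x => l x = i).card = n) {g : G} (hg : g ∈ Q) (hl : l g = 0)
    (hc : n + 3 ≤ A.card) (hR : R A g) :
    ∃ H : Finset G, IsSub H ∧ H ⊆ Q ∧ H.card ∣ n ∧ (A + H).card = n + H.card := by
  set P := Q.filter fun x => l x = 0 with hP
  have sP : IsSub P := ⟨mem_filter.2 ⟨hQ.zero, map_zero l⟩,
    fun hx hy => mem_filter.2 ⟨hQ.add (mem_filter.1 hx).1 (mem_filter.1 hy).1, by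
      rw [map_add, (mem_filter.1 hx).2, (mem_filter.1 hy).2, add_zero]⟩,
    fun hx => mem_filter.2 ⟨hQ.neg (mem_filter.1 hx).1, by
      rw [map_neg, (mem_filter.1 hx).2, neg_zero]⟩⟩
  have cP : P.card = n := hf 0
  suffices h : ∃ H : Finset G, IsSub H ∧ H ⊆ P ∧ (A + H).card ≤ n + H.card by
    obtain ⟨H, sH, hH, h⟩ := h
    have d1 : H.card ∣ n := cP ▸ Per.dvd sH _ _ rfl (sP.per hH)
    refine ⟨H, sH, hH.trans (filter_subset _ _), d1, le_antisymm h ?_⟩
    obtain ⟨u, hu⟩ := d1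
    obtain ⟨v, hv⟩ := Per.dvd sH _ _ rfl (per_add sH A)
    have := card_le_card (sub_add sH A)
    have h1 : u < v := Nat.lt_of_mul_lt_mul_left (a := H.card) (by omega)
    rw [hv, hu]
    exact Nat.mul_le_mul_left H.card h1
  by_cases hne : ∀ i, (A.filter fun x => l x = i).Nonempty
  · obtain ⟨a, ha⟩ := hne 0
    obtain ⟨b, hb⟩ := hne 1
    obtain ⟨c, hc⟩ := hne 2
    have hs : ∀ i, ∀ a ∈ A.filter fun x => l x = i, (A.filter fun x => l x = i) ⊆ cs a P := by
      intro i a ha x hx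
      refine mem_cs.2 (mem_filter.2 ⟨hQ.sub (hA (mem_filter.1 hx).1) (hA (mem_filter.1 ha).1), ?_⟩)
      rw [map_sub, (mem_filter.1 hx).2, (mem_filter.1 ha).2, sub_self]
    obtain ⟨J, sJ, hJ, -, -, k1, k2⟩ := kn (g := g) sP (hs 0 a ha) (hs 1 b hb) (hs 2 c hc)
      (hne 0) (hne 1) (hne 2) (by
        refine mem_filter.2 ⟨hQ.sub hg (hQ.add (hQ.add (hA (mem_filter.1 ha).1)
          (hA (mem_filter.1 hb).1)) (hA (mem_filter.1 hc).1)), ?_⟩
        rw [map_sub, map_add, map_add, (mem_filter.1 ha).2, (mem_filter.1 hb).2,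
          (mem_filter.1 hc).2, hl]
        decide) (by
        intro x hx y hy z hz
        obtain ⟨hx1, hx2⟩ := mem_filter.1 hx
        obtain ⟨hy1, hy2⟩ := mem_filter.1 hy
        obtain ⟨hz1, hz2⟩ := mem_filter.1 hz
        refine hR x hx1 y hy1 z hz1 ?_ ?_ ?_
        · rintro rfl; exact absurd (hx2.symm.trans hy2) (by decide)
        · rintro rfl; exact absurd (hx2.symm.trans hz2) (by decide)
        · rintro rfl; exact absurd (hy2.symm.trans hz2) (by decide))
    refine ⟨J, sJ, hJ, ?_⟩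
    have : A + J ⊆ ((A.filter fun x => l x = 0) + J) ∪ ((A.filter fun x => l x = 1) + J) ∪
        ((A.filter fun x => l x = 2) + J) := by
      intro x hx
      obtain ⟨a, ha, h, hh, rfl⟩ := mem_add.1 hx
      rcases z3 (l a) with e | e | e
      · exact mem_union_left _ (mem_union_left _ (add_mem_add (mem_filter.2 ⟨ha, e⟩) hh))
      · exact mem_union_left _ (mem_union_right _ (add_mem_add (mem_filter.2 ⟨ha, e⟩) hh))
      · exact mem_union_right _ (add_mem_add (mem_filter.2 ⟨ha, e⟩) hh)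
    have h1 := (card_le_card this).trans ((card_union_le _ _).trans
      (Nat.add_le_add_right (card_union_le _ _) _))
    omega
  · obtain ⟨i, hi⟩ := not_forall.1 hne
    refine ⟨P, sP, Subset.rfl, ?_⟩
    have : A + P ⊆ (Q.filter fun x => l x = i + 1) ∪ (Q.filter fun x => l x = i + 2) := by
      intro x hx
      obtain ⟨a, ha, h, hh, rfl⟩ := mem_add.1 hx
      have h1 : l a ≠ i := fun e => hi ⟨a, mem_filter.2 ⟨ha, e⟩⟩
      have h2 := hQ.add (hA ha) (mem_filter.1 hh).1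
      have h3 : l (a + h) = l a := by rw [map_add, (mem_filter.1 hh).2, add_zero]
      have h4 : ∀ i j : ZMod 3, j ≠ i → j = i + 1 ∨ j = i + 2 := by decide
      rcases h4 i _ h1 with e | e
      · exact mem_union_left _ (mem_filter.2 ⟨h2, h3.trans e⟩)
      · exact mem_union_right _ (mem_filter.2 ⟨h2, h3.trans e⟩)
    have h1 := (card_le_card this).trans (card_union_le _ _)
    rw [hf, hf] at h1
    omega

lemma sub_cs0 {A Q : Finset G} (hA : A ⊆ Q) : A ⊆ cs 0 Q := fun x hx => mem_cs.2 (by simpa using hA hx)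

/-- periodic structure -/
def S1 (Q A : Finset G) (g : G) : Prop :=
  ∃ J : Finset G, IsSub J ∧ J ⊆ Q ∧ ∃ d c, Q.card = J.card * d ∧ 3 * c = d + 1 ∧
    (A + J).card = J.card * c ∧ (∀ x ∈ A, ∀ y ∈ A, ∀ z ∈ A, x + y + z - g ∉ J) ∧
    ∀ u ∈ Q, u - g ∉ J → ∃ x ∈ A + J, ∃ y ∈ A + J, ∃ z ∈ A + J, x + y + z = u

/-- two half-filled cosets -/
def S0 (Q A : Finset G) (g : G) (n : ℕ) : Prop :=
  A.card = n + 3 ∧ ∃ H : Finset G, IsSub H ∧ H ⊆ Q ∧ (A + H).card = n + H.card ∧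
    ∃ z ∈ A, ∃ z' ∈ A, z - z' ∉ H ∧ g - 3 • z ∈ H ∧ g - 3 • z' ∈ H ∧
      2 * (A ∩ cs z H).card = H.card + 3 ∧ 2 * (A ∩ cs z' H).card = H.card + 3

lemma struct {Q A : Finset G} (hQ : IsSub Q) (hA : A ⊆ Q) (l : G →+ ZMod 3) {n : ℕ}
    (hn : 0 < n) (cQ : Q.card = 3 * n)
    (hf : ∀ i, (Q.filter fun x => l x = i).card = n) {g : G} (hg : g ∈ Q) (hl : l g = 0)
    (hc : n + 3 ≤ A.card) (hR : R A g) : S1 Q A g ∨ S0 Q A g n := by
  obtain ⟨H, sH, hH, -, cB⟩ := step1 hQ hA l hf hg hl hc hR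
  have hd : (A + H).card + 3 ≤ A.card + H.card := by omega
  have dg : ∀ a ∈ A + H, ∀ b ∈ A + H, ∀ c ∈ A + H, a + b + c - g ∈ H → a - b ∈ H ∧ a - c ∈ H :=
    fun a ha b hb c hc hs => ⟨diag sH hd hR ha hb hc hs,
      diag sH hd hR ha hc hb (memc hs (by abel))⟩
  have hB : A + H ⊆ Q := add_sub_of hQ hA hH
  have nA : A.Nonempty := card_pos.1 (by omega)
  have nB : (A + H).Nonempty := nA.add ⟨0, sH.zero⟩
  have hAB := sub_add sH A
  by_cases hZ : ∃ z ∈ A, g - 3 • z ∈ H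
  · right
    obtain ⟨z, hz, hzg⟩ := hZ
    have h2 : ∃ z' ∈ A, z - z' ∉ H ∧ g - 3 • z' ∈ H := by
      by_contra hcon
      push Not at hcon
      set C := (A + H) \ cs z H with hC
      have cC : C.card = n := by
        have := card_sdiff_add_card_eq_card (cs_sub sH (hAB hz))
        rw [card_cs, ← hC] at this
        omega
      have hCB : C ⊆ A + H := sdiff_subset
      obtain ⟨J, sJ, hJ, eJ, k0, k1, k2⟩ := kn (g := g) hQ (sub_cs0 (hCB.trans hB)) (sub_cs0 hB)
        (sub_cs0 hB) (card_pos.1 (by omega)) nB nB (by simpa using hg) (by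
          intro x hx y hy w hw e
          obtain ⟨e1, e2⟩ := dg x (hCB hx) y hy w hw (by rw [e, sub_self]; exact sH.zero)
          obtain ⟨x0, hx0, h, hh, rfl⟩ := mem_add.1 (hCB hx)
          refine hcon x0 hx0 (fun h' => (mem_sdiff.1 hx).2 (mem_cs.2 ?_)) ?_
          · exact memc (sH.sub hh h') (by abel)
          · exact memc (sH.sub (sH.sub (sH.add (sH.add hh hh) hh) e1) e2) (by rw [← e]; abel))
      have hHJ : H ⊆ J := by
        rw [eJ, add_comm]
        exact per_iff.1 ((per_add sH A).add_right _)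
      have s1 : Disjoint (C + J) (cs z J) := by
        rw [disjoint_left]
        intro x hx hx'
        obtain ⟨c, hc, j, hj, rfl⟩ := mem_add.1 hx
        exact k0 c hc z (hAB hz) z (hAB hz)
          (memc (sJ.sub (sJ.sub (mem_cs.1 hx') hj) (hHJ hzg)) (by abel))
      have s2 : (C + J) ∪ cs z J ⊆ A + H + J :=
        union_subset (add_subset_add_right hCB) (cs_sub sJ (sub_add sJ _ (hAB hz)))
      have s3 := card_le_card s2
      rw [card_union_of_disjoint s1, card_cs] at s3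
      have := card_le_card (sub_add sJ C)
      have jp : 0 < J.card := card_pos.2 ⟨0, sJ.zero⟩
      omega
    obtain ⟨z', hz', hzz, hzg'⟩ := h2
    have h3 := defic2 sH (hAB hz) (hAB hz') hzz
    have y1 := fun h => (lemY sH (inter_subset_right (s₁ := A)) hzg h
      (hR.mono inter_subset_left)).1
    have y2 := fun h => (lemY sH (inter_subset_right (s₁ := A)) hzg' h
      (hR.mono inter_subset_left)).1
    refine ⟨by omega, H, sH, hH, cB, z, hz, z', hz', hzz, hzg, hzg', by omega, by omega⟩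
  · left
    push Not at hZ
    obtain ⟨J, sJ, hJ, eJ, k0, k1, k2⟩ := kn (g := g) hQ (sub_cs0 hB) (sub_cs0 hB)
      (sub_cs0 hB) nB nB nB (by simpa using hg) (by
        intro x hx y hy w hw e
        obtain ⟨e1, e2⟩ := dg x hx y hy w hw (by rw [e, sub_self]; exact sH.zero)
        obtain ⟨x0, hx0, h, hh, rfl⟩ := mem_add.1 hx
        refine hZ x0 hx0 ?_
        exact memc (sH.sub (sH.sub (sH.add (sH.add hh hh) hh) e1) e2) (by rw [← e]; abel))
    have hHJ : H ⊆ J := by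
      rw [eJ, add_comm]
      exact per_iff.1 ((per_add sH A).add_right _)
    have eB : A + H + J = A + J := by
      rw [add_assoc, add_comm H J, (show Per H J from sJ.per hHJ).add_eq sH]
    rw [eB] at k2
    obtain ⟨d, hd'⟩ := Per.dvd sJ _ _ rfl (hQ.per hJ)
    obtain ⟨c, hc'⟩ := Per.dvd sJ _ _ rfl (per_add sJ A)
    have := card_le_card (sub_add sJ A)
    have jp : 0 < J.card := card_pos.2 ⟨0, sJ.zero⟩
    have h1 : d < 3 * c := Nat.lt_of_mul_lt_mul_left (a := J.card) (by nlinarith)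
    have h2 : 3 * c ≤ d + 1 := Nat.le_of_mul_le_mul_left (by nlinarith) jp
    have h3 : 3 * c = d + 1 := by omega
    refine ⟨J, sJ, hJ, d, c, hd', h3, hc', fun x hx y hy z hz =>
      k0 x (hAB hx) y (hAB hy) z (hAB hz), fun u hu hug => ?_⟩
    set S := A + H + (A + H) + (A + H) with hS
    have e4 : Disjoint S (cs g J) := by
      rw [disjoint_left]
      intro w hw hw'
      obtain ⟨u, hu, z, hz, rfl⟩ := mem_add.1 hw
      obtain ⟨x, hx, y, hy, rfl⟩ := mem_add.1 hu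
      exact k0 x hx y hy z hz (mem_cs.1 hw')
    have e5 : S ∪ cs g J ⊆ Q := by
      refine union_subset (add_sub_of hQ (add_sub_of hQ hB hB) hB) fun x hx => ?_
      exact memc (hQ.add (hJ (mem_cs.1 hx)) hg) (by abel)
    have e6 : S ∪ cs g J = Q := by
      refine eq_of_subset_of_card_le e5 ?_
      rw [card_union_of_disjoint e4, card_cs]
      nlinarith
    rw [← e6] at hu
    have hu' := (mem_union.1 hu).resolve_right fun h => hug (mem_cs.1 h)
    obtain ⟨v, hv, z, hz, rfl⟩ := mem_add.1 hu'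
    obtain ⟨x, hx, y, hy, rfl⟩ := mem_add.1 hv
    have hBJ : A + H ⊆ A + J := add_subset_add_left hHJ
    exact ⟨x, hBJ hx, y, hBJ hy, z, hBJ hz, rfl⟩

/-- Kneser in cosets of a group all of whose proper subgroups have index divisible by three -/
lemma k3g {X Y Z Q : Finset G} (hQ : IsSub Q) {m : ℕ} (cQ : Q.card = 3 * m)
    (h3 : ∀ d, d ∣ 3 * m → d ≠ 1 → 3 ∣ d) {a b c g : G} (hX : X ⊆ cs a Q)
    (hY : Y ⊆ cs b Q) (hZ : Z ⊆ cs c Q) (nX : X.Nonempty) (nY : Y.Nonempty) (nZ : Z.Nonempty)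
    (hg : g - (a + b + c) ∈ Q) (hn : ∀ x ∈ X, ∀ y ∈ Y, ∀ z ∈ Z, x + y + z ≠ g) :
    ∃ h, 1 ≤ h ∧ h ≤ m ∧ X.card + Y.card + Z.card ≤ 3 * m + h ∧
      (m < Y.card → X.card + Z.card ≤ 2 * m) ∧ (m < Y.card → m < Z.card → X.card + h ≤ m) := by
  obtain ⟨J, sJ, hJ, -, -, k1, k2⟩ := kn hQ hX hY hZ nX nY nZ hg hn
  obtain ⟨d, hd⟩ := Per.dvd sJ _ _ rfl (hQ.per hJ)
  obtain ⟨x, hx⟩ := Per.dvd sJ _ _ rfl (per_add sJ X)
  obtain ⟨y, hy⟩ := Per.dvd sJ _ _ rfl (per_add sJ Y)
  obtain ⟨z, hz⟩ := Per.dvd sJ _ _ rfl (per_add sJ Z)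
  have l1 := card_le_card (sub_add sJ X)
  have l2 := card_le_card (sub_add sJ Y)
  have l3 := card_le_card (sub_add sJ Z)
  have jp : 0 < J.card := card_pos.2 ⟨0, sJ.zero⟩
  have sp : 0 < (X + Y + Z).card := card_pos.2 ((nX.add nY).add nZ)
  obtain ⟨e, rfl⟩ := h3 d (by rw [← cQ, hd]; exact Dvd.intro_left _ rfl) (by rintro rfl; omega)
  set h := J.card
  have hm : m = h * e := by nlinarith
  have hs : x + y + z ≤ 3 * e + 1 := Nat.le_of_mul_le_mul_left (by nlinarith) jp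
  have he : 0 < e := by
    rcases Nat.eq_zero_or_pos e with rfl | h
    · omega
    · exact h
  have t1 : m < Y.card → e + 1 ≤ y := fun h' => Nat.lt_of_mul_lt_mul_left (a := h) (by omega)
  have t2 : m < Z.card → e + 1 ≤ z := fun h' => Nat.lt_of_mul_lt_mul_left (a := h) (by omega)
  refine ⟨h, jp, by nlinarith, by omega, fun h1 => ?_, fun h1 h2 => ?_⟩
  · have := t1 h1
    have : h * (x + z) ≤ h * (2 * e) := Nat.mul_le_mul_left _ (by omega)
    nlinarith
  · have := t1 h1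
    have := t2 h2
    have : h * (x + 1) ≤ h * e := Nat.mul_le_mul_left _ (by omega)
    nlinarith

end Pool.Agent.H.MP_e67b39_co
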