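import Pool.Agent.H.MP_e67b39_co.B

set_option linter.unusedSectionVars false

open Finset
open scoped Pointwise

namespace Pool.Agent.H.MP_e67b39_co

open Pool.Agent.Lib.helper8.Kneser

variable {G : Type} [AddCommGroup G] [Fintype G] [DecidableEq G]

lemma sum_cs (y : G) (H : Finset G) : ∑ x ∈ cs y H, x = H.card • y + ∑ x ∈ H, x := by
  rw [← sum_const, ← sum_add_distrib]
  refine sum_bij (fun z _ => z - y) (fun z hz => mem_cs.1 hz) (fun a _ b _ e => by simpa using e)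
    (fun h hh => ⟨h + y, mem_cs.2 (by simpa using hh), by simp⟩) (fun a _ => by abel)

lemma card_nsmul0 {H : Finset G} (hH : IsSub H) {y : G} (hy : y ∈ H) : H.card • y = 0 := by
  have e : cs y H = H := by
    ext x
    rw [mem_cs]
    exact ⟨fun h => memc (hH.add h hy) (by abel), fun h => hH.sub h hy⟩
  have := sum_cs y H
  rw [e] at this
  simpa using this

lemma sum_odd {H : Finset G} (hH : IsSub H) (ho : Odd H.card) : ∑ x ∈ H, x = 0 := by
  have h1 : ∑ x ∈ H, x ∈ H := sum_induction _ (· ∈ H) (fun _ _ => hH.add) hH.zero (fun _ h => h)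
  have h2 : ∑ x ∈ H, x = -∑ x ∈ H, x := by
    rw [← sum_neg_distrib]
    exact sum_bij (fun z _ => -z) (fun z hz => hH.neg hz) (fun a _ b _ e => by simpa using e)
      (fun h hh => ⟨-h, hH.neg hh, by simp⟩) (fun a _ => by simp)
  have h3 := card_nsmul0 hH h1
  obtain ⟨m, hm⟩ := ho
  rw [hm, add_nsmul, mul_nsmul, two_nsmul, add_eq_zero_iff_eq_neg.2 h2] at h3
  simpa using h3

lemma sum_per {H : Finset G} (hH : IsSub H) (ho : Odd H.card) (X : Finset G) (hX : Per H X) :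
    ∃ t, ∑ x ∈ X, x = H.card • t := by
  induction X using Finset.strongInduction with
  | H X ih =>
    rcases X.eq_empty_or_nonempty with rfl | ⟨y, hy⟩
    · exact ⟨0, by simp⟩
    have hs : cs y H ⊆ X := fun x hx => memc (hX _ (mem_cs.1 hx) y hy) (by abel)
    obtain ⟨t, ht⟩ := ih (X \ cs y H) (sdiff_ssubset hs ⟨y, mem_cs.2 (by simpa using hH.zero)⟩) (by
      intro h hh x hx
      refine mem_sdiff.2 ⟨hX h hh x (mem_sdiff.1 hx).1, fun h' => (mem_sdiff.1 hx).2 (mem_cs.2 ?_)⟩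
      exact memc (hH.sub (mem_cs.1 h') hh) (by abel))
    refine ⟨t + y, ?_⟩
    rw [← sum_sdiff hs, ht, sum_cs, sum_odd hH ho, nsmul_add, add_zero]

lemma ne3 {J Y : Finset G} (sJ : IsSub J) (cJ : J.card = 3) (hp : Per J Y) {g z : G} (hz : z ∈ Y)
    (hR : R Y g) : g - 3 • z ≠ 0 := by
  intro e
  obtain ⟨h, hh, h0⟩ := exists_mem_notMem_of_card_lt_card
    (show ({0} : Finset G).card < J.card by simp [cJ])
  have h3 := card_nsmul0 sJ hh
  rw [cJ] at h3
  rw [mem_singleton] at h0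
  refine hR z hz (h + z) (hp h hh z hz) (-h + z) (hp _ (sJ.neg hh) z hz) (by simpa using h0)
    (by simpa using h0) (fun e' => h0 ?_) (by rw [sub_eq_zero.1 e]; abel)
  have e1 : h = -h := add_right_cancel e'
  have : h = 3 • h - (h - -h) := by abel
  rw [this, h3, ← e1]
  simp

lemma pin {J : Finset G} {h0 : G} (hU : ∀ t : G, 9 • t = 0 → 3 • t = 0 ∨ 3 • t = h0 ∨ 3 • t = -h0)
    (sJ : IsSub J) (cJ : J.card = 3) {t : G} (ht : 3 • t ∈ J) (hne : 3 • t ≠ 0) :
    h0 ∈ J ∧ ∀ j ∈ J, ∃ s : G, j = 3 • s ∧ (j = 0 ∨ j = h0 ∨ j = -h0) := by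
  have h3 := card_nsmul0 sJ ht
  rw [cJ] at h3
  have h9 : 9 • t = 0 := by rw [← h3]; abel
  have e : 3 • t = h0 ∨ 3 • t = -h0 := (hU t h9).resolve_left hne
  have hne2 : (3 • t : G) ≠ -(3 • t) := by
    intro e'
    apply hne
    have : (3 • t : G) = 3 • (3 • t) - (3 • t - -(3 • t)) := by abel
    rw [this, h3, ← e']
    simp
  have hJ : ({0, 3 • t, -(3 • t)} : Finset G) = J := by
    refine eq_of_subset_of_card_le ?_ ?_
    · intro x hx
      simp only [mem_insert, mem_singleton] at hx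
      rcases hx with rfl | rfl | rfl
      exacts [sJ.zero, ht, sJ.neg ht]
    · rw [cJ, card_eq_three.2 ⟨_, _, _, hne.symm, (neg_ne_zero.2 hne).symm, hne2, rfl⟩]
  refine ⟨?_, fun j hj => ?_⟩
  · rcases e with e | e
    · exact e ▸ ht
    · exact memc (sJ.neg ht) (by rw [e, neg_neg])
  · rw [← hJ] at hj
    simp only [mem_insert, mem_singleton] at hj
    rcases hj with rfl | rfl | rfl
    · exact ⟨0, by simp, Or.inl rfl⟩
    · exact ⟨t, rfl, Or.inr e⟩
    · refine ⟨-t, by simp, Or.inr ?_⟩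
      rcases e with e | e <;> simp [e]

/-- periodic under the subgroup of order three of `3G` -/
def S2 (A : Finset G) (g h0 : G) : Prop :=
  ∃ J : Finset G, IsSub J ∧ J.card = 3 ∧ h0 ∈ J ∧ (∀ j ∈ J, ∃ s : G, j = 3 • s) ∧ Per J A ∧
    ∃ z ∈ A, g - 3 • z ∈ J

/-- almost periodic under a subgroup of order five -/
def S3 (A : Finset G) (g : G) : Prop :=
  ∃ H : Finset G, IsSub H ∧ H.card = 5 ∧ ∃ w w', w - w' ∉ H ∧ w ∉ A ∧ w' ∉ A ∧
    A + H = insert w (insert w' A) ∧ g = 3 • w ∧ g = 3 • w'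

lemma refine0 {Q A : Finset G} {g h0 : G} {n : ℕ}
    (hU : ∀ t : G, 9 • t = 0 → 3 • t = 0 ∨ 3 • t = h0 ∨ 3 • t = -h0)
    (hR : R A g) (hs : ∑ x ∈ A, x = g) (h : S0 Q A g n) : S2 A g h0 ∨ S3 A g := by
  obtain ⟨cA, H, sH, -, cB, z, hz, z', hz', hzz, hzg, hzg', c1, c2⟩ := h
  have hAB := sub_add sH A
  by_cases h3 : H.card = 3
  · left
    have e : A = A + H := eq_of_subset_of_card_le hAB (by omega)
    have hp : Per H A := e ▸ per_add sH A
    obtain ⟨t, ht⟩ := sum_per sH (by rw [h3]; decide) A hp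
    rw [hs, h3] at ht
    have e1 : g - 3 • z = 3 • (t - z) := by rw [ht]; abel
    obtain ⟨p1, p2⟩ := pin hU sH h3 (e1 ▸ hzg) (e1 ▸ ne3 sH h3 hp hz hR)
    exact ⟨H, sH, h3, p1, fun j hj => (p2 j hj).imp fun _ h => h.1, hp, z, hz, hzg⟩
  obtain ⟨J, sJ, hJ, w, eW, hw, cJ⟩ := lemY2 sH (inter_subset_right (s₁ := A)) hzg c1.ge
    (hR.mono inter_subset_left) h3
  obtain ⟨J', sJ', hJ', w', eW', hw', cJ'⟩ := lemY2 sH (inter_subset_right (s₁ := A)) hzg' c2.ge
    (hR.mono inter_subset_left) h3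
  rw [sdiff_inter_self_right] at eW eW'
  have s1 : cs w J ⊆ cs z H := eW ▸ sdiff_subset
  have s2 : cs w' J' ⊆ cs z' H := eW' ▸ sdiff_subset
  have dj : Disjoint (cs w J) (cs w' J') := (cs_disj sH hzz).mono s1 s2
  have eD : cs w J ∪ cs w' J' = (A + H) \ A := by
    refine eq_of_subset_of_card_le (union_subset ?_ ?_) ?_
    · rw [← eW]; exact sdiff_subset_sdiff (cs_sub sH (hAB hz)) Subset.rfl
    · rw [← eW']; exact sdiff_subset_sdiff (cs_sub sH (hAB hz')) Subset.rfl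
    · have := card_sdiff_add_card_eq_card hAB
      rw [card_union_of_disjoint dj, card_cs, card_cs]
      omega
  have w0 : w ∈ cs w J := mem_cs.2 (by simpa using sJ.zero)
  have w0' : w' ∈ cs w' J' := mem_cs.2 (by simpa using sJ'.zero)
  by_cases h5 : H.card = 5
  · right
    have j1 : J = {0} := by
      refine (eq_of_subset_of_card_le (by simpa using sJ.zero) ?_).symm
      rw [card_singleton]; omega
    have j2 : J' = {0} := by
      refine (eq_of_subset_of_card_le (by simpa using sJ'.zero) ?_).symm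
      rw [card_singleton]; omega
    refine ⟨H, sH, h5, w, w', fun h => hzz ?_, (mem_sdiff.1 (eW ▸ w0)).2,
      (mem_sdiff.1 (eW' ▸ w0')).2, ?_, by simpa [j1, sub_eq_zero] using hw,
      by simpa [j2, sub_eq_zero] using hw'⟩
    · exact memc (sH.add (sH.sub h (mem_cs.1 (s1 w0))) (mem_cs.1 (s2 w0'))) (by abel)
    · rw [← sdiff_union_of_subset hAB, ← eD, j1, j2]
      ext x
      simp [mem_cs, sub_eq_zero, or_assoc]
  left
  have h9 : H.card = 9 := by omega
  have j3 : J.card = 3 := by omega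
  have j3' : J'.card = 3 := by omega
  obtain ⟨t, ht⟩ := sum_per sH (by rw [h9]; decide) _ (per_add sH A)
  rw [← sum_sdiff hAB, ← eD, sum_union dj, sum_cs, sum_cs, sum_odd sJ (by rw [j3]; decide),
    sum_odd sJ' (by rw [j3']; decide), j3, j3', h9, hs] at ht
  obtain ⟨t', ht'⟩ : ∃ t' : G, g = 3 • t' :=
    ⟨3 • t - w - w', by rw [← sub_eq_zero, ← sub_eq_zero.2 ht]; abel⟩
  have key : ∀ (J : Finset G) (z w : G), IsSub J → J ⊆ H → J.card = 3 → z ∈ A →
      cs z H \ A = cs w J → g - 3 • w ∈ J →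
      g - 3 • z ∈ J ∧ h0 ∈ J ∧ ∀ j ∈ J, ∃ s : G, j = 3 • s ∧ (j = 0 ∨ j = h0 ∨ j = -h0) := by
    intro J z w sJ hJ j3 hz eW hw
    have zz : z ∈ A ∩ cs z H := mem_inter.2 ⟨hz, mem_cs.2 (by simpa using sH.zero)⟩
    have hp : Per J (A ∩ cs z H) := by
      intro j hj x hx
      have h1 : j + x ∈ cs z H := mem_cs.2 (memc (sH.add (hJ hj) (mem_cs.1 (mem_inter.1 hx).2))
        (by abel))
      refine mem_inter.2 ⟨?_, h1⟩
      by_contra hn
      have h2 : j + x ∈ cs w J := eW ▸ mem_sdiff.2 ⟨h1, hn⟩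
      have h3 : x ∈ cs w J := mem_cs.2 (memc (sJ.sub (mem_cs.1 h2) hj) (by abel))
      exact (mem_sdiff.1 (eW ▸ h3)).2 (mem_inter.1 hx).1
    have w0 : w ∈ cs z H \ A := eW ▸ mem_cs.2 (by simpa using sJ.zero)
    have wz : w - z ∈ H := mem_cs.1 (mem_sdiff.1 w0).1
    have v0 : w + 2 • (w - z) ∈ cs z H :=
      mem_cs.2 (memc (sH.add (sH.add wz wz) wz) (by abel))
    have h3 : g - 3 • z ∈ J := by
      by_cases hv : w + 2 • (w - z) ∈ A
      · have := diag sJ (g := g) (A := A ∩ cs z H) (by rw [hp.add_eq sJ]; omega)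
          (hR.mono inter_subset_left) (sub_add sJ _ zz) (sub_add sJ _ (mem_inter.2 ⟨hv, v0⟩))
          (sub_add sJ _ zz) (memc (sJ.neg hw) (by abel))
        exact memc (sJ.sub hw this) (by abel)
      · have h2 : 2 • (w - z) ∈ J := by
          have : w + 2 • (w - z) ∈ cs w J := eW ▸ mem_sdiff.2 ⟨v0, hv⟩
          exact memc (mem_cs.1 this) (by abel)
        have h9' := card_nsmul0 sH wz
        rw [h9] at h9'
        have : z ∈ cs w J := mem_cs.2 (memc (sJ.add (sJ.add h2 h2) (sJ.add h2 h2)) (by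
          rw [← sub_eq_zero, ← neg_eq_zero, ← h9']; abel))
        exact absurd hz (mem_sdiff.1 (eW ▸ this)).2
    have e1 : g - 3 • z = 3 • (t' - z) := by rw [ht']; abel
    exact ⟨h3, pin hU sJ j3 (e1 ▸ h3) (e1 ▸ ne3 sJ j3 hp zz (hR.mono inter_subset_left))⟩
  obtain ⟨a1, a2, a3⟩ := key J z w sJ hJ j3 hz eW hw
  obtain ⟨-, b2, -⟩ := key J' z' w' sJ' hJ' j3' hz' eW' hw'
  have hJJ : J ⊆ J' := by
    intro j hj
    obtain ⟨-, -, rfl | rfl | rfl⟩ := a3 j hj
    exacts [sJ'.zero, b2, sJ'.neg b2]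
  refine ⟨J, sJ, j3, a2, fun j hj => (a3 j hj).imp fun _ h => h.1, ?_, z, hz, a1⟩
  intro j hj x hx
  by_contra hn
  have h1 : j + x ∈ (A + H) \ A := mem_sdiff.2 ⟨per_add sH A j (hJ hj) x (hAB hx), hn⟩
  rw [← eD] at h1
  rcases mem_union.1 h1 with h | h
  · have : x ∈ cs w J := mem_cs.2 (memc (sJ.sub (mem_cs.1 h) hj) (by abel))
    exact (mem_sdiff.1 (eW ▸ this)).2 hx
  · have : x ∈ cs w' J' := mem_cs.2 (memc (sJ'.sub (mem_cs.1 h) (hJJ hj)) (by abel))
    exact (mem_sdiff.1 (eW' ▸ this)).2 hx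

end Pool.Agent.H.MP_e67b39_co
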