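import Mathlib

open Finset Polynomial

namespace Pool.Agent.H.MP_e67b39_co

variable {F : Type} [Field F]

/-- first moments of a weighted family -/
def Mom {ι : Type} (s : Finset ι) (W v : ι → F) (r : ℕ) (a b : F) : Prop :=
  (∀ n < r, ∑ i ∈ s, W i * v i ^ n = 0) ∧ ∑ i ∈ s, W i * v i ^ r = a ∧
    ∑ i ∈ s, W i * v i ^ (r + 1) = b

lemma conv {ι κ : Type} (s : Finset ι) (t : Finset κ) (W v : ι → F) (W' v' : κ → F) (n : ℕ) :
    ∑ p ∈ s ×ˢ t, (W p.1 * W' p.2) * (v p.1 + v' p.2) ^ n =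
      ∑ m ∈ range (n + 1), (n.choose m : F) * (∑ i ∈ s, W i * v i ^ m) *
        ∑ j ∈ t, W' j * v' j ^ (n - m) := by
  simp_rw [add_pow, mul_sum, sum_mul]
  rw [sum_comm]
  refine sum_congr rfl fun m _ => ?_
  rw [sum_product, sum_comm]
  refine sum_congr rfl fun j _ => sum_congr rfl fun i _ => by ring

lemma Mom.conv {ι κ : Type} {s : Finset ι} {t : Finset κ} {W v : ι → F} {W' v' : κ → F}
    {r r' : ℕ} {a b a' b' : F} (h : Mom s W v r a b) (h' : Mom t W' v' r' a' b') :
    Mom (s ×ˢ t) (fun p => W p.1 * W' p.2) (fun p => v p.1 + v' p.2) (r + r')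
      (((r + r').choose r : F) * a * a')
      (((r + r' + 1).choose r : F) * a * b' + ((r + r' + 1).choose (r + 1) : F) * b * a') := by
  refine ⟨fun n hn => ?_, ?_, ?_⟩
  · rw [MP_e67b39_co.conv]
    refine sum_eq_zero fun m hm => ?_
    by_cases h1 : m < r
    · rw [h.1 m h1]; ring
    · rw [h'.1 (n - m) (by have := mem_range.1 hm; omega)]; ring
  · rw [MP_e67b39_co.conv, sum_eq_single r]
    · rw [Nat.add_sub_cancel_left, h.2.1, h'.2.1]
    · intro m hm hne
      by_cases h1 : m < r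
      · rw [h.1 m h1]; ring
      · rw [h'.1 (r + r' - m) (by have := mem_range.1 hm; omega)]; ring
    · intro hm
      exact absurd (mem_range.2 (by omega)) hm
  · rw [MP_e67b39_co.conv, sum_eq_add r (r + 1) (by omega)]
    · rw [show r + r' + 1 - r = r' + 1 by omega, show r + r' + 1 - (r + 1) = r' by omega,
        h.2.1, h'.2.1, h.2.2, h'.2.2]
    · intro m hm hne
      by_cases h1 : m < r
      · rw [h.1 m h1]; ring
      · rw [h'.1 (r + r' + 1 - m) (by have := mem_range.1 hm; omega)]; ring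
    · intro hm
      exact absurd (mem_range.2 (by omega)) hm
    · intro hm
      exact absurd (mem_range.2 (by omega)) hm

lemma mom_lagr [DecidableEq F] (B : Finset F) (y : F) {r : ℕ} (hB : B.card = r + 1) :
    Mom B (fun i => (∏ j ∈ B.erase i, (i - j))⁻¹) (fun i => i - y) r 1 (∑ i ∈ B, (i - y)) := by
  have hv : Set.InjOn (fun i : F => i - y) B := fun a _ b _ h => by simpa using h
  have key : ∀ P : F[X], P.degree < B.card → P.coeff r =
      ∑ i ∈ B, (∏ j ∈ B.erase i, (i - j))⁻¹ * P.eval (i - y) := by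
    intro P hP
    have := Lagrange.coeff_eq_sum hv hP
    rw [hB, Nat.add_sub_cancel] at this
    rw [this]
    refine sum_congr rfl fun i _ => ?_
    simp [div_eq_inv_mul]
  have k1 : ∀ n ≤ r, (X ^ n : F[X]).coeff r =
      ∑ i ∈ B, (∏ j ∈ B.erase i, (i - j))⁻¹ * (i - y) ^ n := by
    intro n hn
    rw [key _ (by rw [degree_X_pow, hB]; exact_mod_cast Nat.lt_succ_of_le hn)]
    simp
  refine ⟨fun n hn => ?_, ?_, ?_⟩
  · rw [← k1 n hn.le, coeff_X_pow, if_neg hn.ne']
  · rw [← k1 r le_rfl, coeff_X_pow, if_pos rfl]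
  · have hm : (∏ i ∈ B, (X - C (i - y))).Monic := monic_prod_of_monic _ _ fun i _ => monic_X_sub_C _
    have hd : (∏ i ∈ B, (X - C (i - y))).degree = ((r + 1 : ℕ) : WithBot ℕ) := by
      rw [degree_eq_natDegree hm.ne_zero, natDegree_prod_of_monic _ _ fun i _ => monic_X_sub_C _]
      simp only [natDegree_X_sub_C, sum_const, smul_eq_mul, mul_one, hB]
    have h1 := key (X ^ (r + 1) - ∏ i ∈ B, (X - C (i - y))) (by
      rw [hB, ← degree_X_pow (R := F)]
      exact degree_sub_lt (by rw [hd, degree_X_pow]) (monic_X_pow _).ne_zero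
        (by rw [hm.leadingCoeff, (monic_X_pow _).leadingCoeff]))
    have h2 := prod_X_sub_C_coeff_card_pred B (fun i => i - y) (by omega)
    rw [hB, Nat.add_sub_cancel] at h2
    rw [coeff_sub, h2, coeff_X_pow, if_neg (by omega), zero_sub, neg_neg] at h1
    rw [h1]
    refine sum_congr rfl fun i hi => ?_
    rw [eval_sub, eval_prod, prod_eq_zero hi (by simp)]
    simp

lemma nine {p : ℕ} [Fact p.Prime] (B : Finset (ZMod p)) (y : ZMod p) {r : ℕ} (hr : 1 ≤ r)
    (hB : B.card = r + 1) (hp : p = 3 * r + 2)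
    (h : ∀ a ∈ B, ∀ b ∈ B, ∀ c ∈ B, a + b + c ≠ y) : 9 * ∑ i ∈ B, i = y := by
  have m := ((mom_lagr B 0 hB).conv (mom_lagr B 0 hB)).conv (mom_lagr B y hB)
  have h0 := m.1 0 (by omega)
  have h1 := m.2.2
  have h2 : ∀ q ∈ (B ×ˢ B) ×ˢ B,
      (q.1.1 - 0 + (q.1.2 - 0) + (q.2 - y)) ^ (r + r + r + 1) =
        (q.1.1 - 0 + (q.1.2 - 0) + (q.2 - y)) ^ 0 := by
    intro q hq
    obtain ⟨hq1, hq2⟩ := mem_product.1 hq
    obtain ⟨hq3, hq4⟩ := mem_product.1 hq1
    rw [show r + r + r + 1 = p - 1 by omega, pow_zero]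
    refine ZMod.pow_card_sub_one_eq_one fun e => h _ hq3 _ hq4 _ hq2 ?_
    linear_combination e
  rw [sum_congr rfl fun q hq => by rw [h2 q hq], h0] at h1
  have c1 := Nat.add_choose_mul_factorial_mul_factorial (r + 1) (r + r)
  have c2 := Nat.add_choose_mul_factorial_mul_factorial r r
  have c3 := Nat.add_choose_mul_factorial_mul_factorial r (r + r + 1)
  have c4 := Nat.add_choose_mul_factorial_mul_factorial (r + 1) r
  have c5 := Nat.add_choose_mul_factorial_mul_factorial r (r + 1)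
  rw [show r + 1 + (r + r) = r + r + r + 1 by ring] at c1
  rw [show r + (r + r + 1) = r + r + r + 1 by ring] at c3
  rw [show r + 1 + r = r + r + 1 by ring] at c4
  rw [show r + (r + 1) = r + r + 1 by ring] at c5
  have hf : ((r + r + r + 1).factorial : ZMod p) ≠ 0 := by
    rw [Ne, ZMod.natCast_eq_zero_iff, (Fact.out : p.Prime).dvd_factorial]
    omega
  have d1 := congrArg (Nat.cast : ℕ → ZMod p) c1
  have d2 := congrArg (Nat.cast : ℕ → ZMod p) c2
  have d3 := congrArg (Nat.cast : ℕ → ZMod p) c3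
  have d4 := congrArg (Nat.cast : ℕ → ZMod p) c4
  have d5 := congrArg (Nat.cast : ℕ → ZMod p) c5
  push_cast at d1 d2 d3 d4 d5
  simp only [sub_zero, sum_sub_distrib, sum_const, hB, nsmul_eq_mul] at h1
  have hp0 : (3 * r + 2 : ZMod p) = 0 := by
    have : ((3 * r + 2 : ℕ) : ZMod p) = 0 := by rw [← hp]; exact ZMod.natCast_self p
    exact_mod_cast this
  set σ := ∑ i ∈ B, i
  have e : ((r + r + r + 1).factorial : ZMod p) * (3 * σ - (r + 1) * y) = 0 := by
    push_cast at h1
    linear_combination (-(r.factorial : ZMod p) * r.factorial * (r + 1).factorial) * h1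
      - (σ - (r + 1) * y) * d1 - 2 * σ * d3
      - ((r + r + r + 1).choose (r + r) : ZMod p) * (r + 1).factorial * (σ - (r + 1) * y) * d2
      - ((r + r + r + 1).choose (r + r + 1) : ZMod p) * r.factorial * σ * (d4 + d5)
  have e2 := (mul_eq_zero.1 e).resolve_left hf
  linear_combination 3 * e2 + y * hp0

end Pool.Agent.H.MP_e67b39_co
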