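import Pool.Agent.H.MP_e67b39_co.C
import Pool.Agent.H.MP_e67b39_co.P

set_option linter.unusedSectionVars false

open Finset
open scoped Pointwise

namespace Pool.Agent.H.MP_e67b39_co

open Pool.Agent.Lib.helper8.Kneser

variable {G : Type} [AddCommGroup G] [Fintype G] [DecidableEq G]

section
variable {Γ : Type} [AddCommGroup Γ] [Fintype Γ] [DecidableEq Γ]

lemma fib (φ : G →+ Γ) (hs : Function.Surjective φ) (y : Γ) :
    Fintype.card Γ * (univ.filter fun x => φ x = y).card = Fintype.card G := by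
  rw [← card_univ (α := G), card_eq_sum_card_fiberwise (f := φ) (s := univ) (t := univ) (by simp),
    sum_congr rfl fun z _ => AddMonoidHom.card_fiber_eq_of_mem_range φ (hs z) (hs y)]
  simp

lemma sum_fib (ψ : G → Γ) (A : Finset G) :
    ∑ x ∈ A, ψ x = ∑ i, (A.filter fun x => ψ x = i).card • i := by
  rw [← sum_fiberwise A ψ]
  refine sum_congr rfl fun i _ => ?_
  rw [sum_congr rfl fun x hx => (mem_filter.1 hx).2, sum_const]

lemma pre (φ : G → Γ) {N : ℕ} (hN : ∀ y, (univ.filter fun x => φ x = y).card = N) (B : Finset Γ) :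
    (univ.filter fun x => φ x ∈ B).card = N * B.card ∧
      ∑ x ∈ univ.filter fun x => φ x ∈ B, φ x = N • ∑ y ∈ B, y := by
  have e : ∀ y ∈ B, ((univ.filter fun x => φ x ∈ B).filter fun x => φ x = y) =
      univ.filter fun x => φ x = y := by
    intro y hy
    ext x
    simp only [mem_filter, mem_univ, true_and]
    exact ⟨fun h => h.2, fun h => ⟨h ▸ hy, h⟩⟩
  constructor
  · rw [card_eq_sum_card_fiberwise (f := φ) (s := univ.filter fun x => φ x ∈ B) (t := B)
      fun x hx => (mem_filter.1 hx).2,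
      sum_congr rfl fun y hy => by rw [e y hy, hN]]
    simp [mul_comm]
  · rw [← sum_fiberwise_of_maps_to (g := φ) (t := B) fun x hx => (mem_filter.1 hx).2, smul_sum]
    refine sum_congr rfl fun y hy => ?_
    rw [e y hy, sum_congr rfl fun x hx => (mem_filter.1 hx).2, sum_const, hN]

lemma ker_sub (φ : G →+ Γ) : IsSub (univ.filter fun x => φ x = 0) :=
  ⟨by simp, fun hx hy => by simp_all, fun hx => by simp_all⟩

end

lemma idx {J : Finset G} (sJ : IsSub J) {d : ℕ} (h : (univ : Finset G).card = J.card * d) (x : G) :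
    d • x ∈ J := by
  let K : AddSubgroup G :=
    { carrier := J, add_mem' := sJ.add, zero_mem' := sJ.zero, neg_mem' := sJ.neg }
  have h1 : Nat.card K = J.card := by
    change Nat.card (J : Set G) = _
    simp
  have h2 := K.card_mul_index
  rw [h1, Nat.card_eq_fintype_card, ← card_univ, h] at h2
  have h3 : K.index = d := Nat.eq_of_mul_eq_mul_left (card_pos.2 ⟨0, sJ.zero⟩) h2
  exact h3 ▸ K.nsmul_index_mem x

lemma two_cls {A J : Finset G} (sJ : IsSub J) {g : G} (hs : ∑ x ∈ A, x = g)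
    (h3 : ∀ x : G, A.card • x = 3 • x) (nA : A.Nonempty)
    (h : ∀ x ∈ A, ∀ y ∈ A, ∀ z ∈ A, x + y + z - g ∉ J) : ∃ a ∈ A, ∃ b ∈ A, a - b ∉ J := by
  by_contra hc
  push Not at hc
  obtain ⟨a, ha⟩ := nA
  have h1 : ∑ x ∈ A, (a - x) ∈ J :=
    sum_induction _ (· ∈ J) (fun _ _ => sJ.add) sJ.zero (fun x hx => hc a ha x hx)
  rw [sum_sub_distrib, sum_const, h3, hs] at h1
  exact h a ha a ha a ha (memc h1 (by abel))

lemma s1four {A : Finset G} {g a : G} {n : ℕ} (cG : (univ : Finset G).card = 3 * n)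
    (cA : A.card = n + 3) (hs : ∑ x ∈ A, x = g) (h3 : ∀ x : G, A.card • x = 3 • x)
    (hS : S1 univ A g) (hR : ∀ b ∈ A, R (A.erase b) (g + a - b)) : False := by
  obtain ⟨J, sJ, -, d, c, hd, hc, cB, k0, k1⟩ := hS
  obtain ⟨a1, h1, a2, h2, h12⟩ := two_cls sJ hs h3 (card_pos.1 (by omega)) k0
  obtain ⟨b, hb, hab⟩ : ∃ b ∈ A, g + a - b - g ∉ J := by
    by_contra hcon
    push Not at hcon
    exact h12 (memc (sJ.sub (hcon a2 h2) (hcon a1 h1)) (by abel))
  obtain ⟨x, hx, y, hy, z, hz, e⟩ := k1 _ (mem_univ _) hab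
  have c3 : 3 * (A + J).card = 3 * n + J.card := by rw [cB, ← cG, hd]; nlinarith
  have cE : (A.erase b).card + 1 = A.card := card_erase_add_one hb
  have jp : 0 < J.card := card_pos.2 ⟨0, sJ.zero⟩
  have big : ∀ x ∈ A + J, 2 * J.card + 6 ≤ 3 * (A.erase b ∩ cs x J).card := by
    intro x hx
    have := defic1 sJ hx
    have h4 : (A ∩ cs x J).card ≤ (A.erase b ∩ cs x J).card + 1 := by
      rw [erase_inter]
      exact Nat.sub_le_iff_le_add.1 (pred_card_le_card_erase)
    omega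
  have mem : ∀ x ∈ A + J, x ∈ A.erase b + J := by
    intro x hx
    obtain ⟨u, hu⟩ := card_pos.1 (show 0 < (A.erase b ∩ cs x J).card by have := big x hx; omega)
    exact memc (add_mem_add (mem_inter.1 hu).1 (sJ.neg (mem_cs.1 (mem_inter.1 hu).2))) (by abel)
  have l := card_le_card (add_subset_add_right (t := J) (erase_subset b A))
  have hd' : (A.erase b + J).card + 3 ≤ (A.erase b).card + J.card := by omega
  have e1 := diag sJ hd' (hR b hb) (mem x hx) (mem y hy) (mem z hz)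
    (by rw [e, sub_self]; exact sJ.zero)
  have e2 := diag sJ hd' (hR b hb) (mem x hx) (mem z hz) (mem y hy)
    (by rw [add_right_comm, e, sub_self]; exact sJ.zero)
  have := big x hx
  have := (lemY sJ (inter_subset_right (s₁ := A.erase b) (s₂ := cs x J))
    (memc (sJ.neg (sJ.add e1 e2)) (by rw [← e]; abel)) (by omega)
    ((hR b hb).mono inter_subset_left)).1
  omega

lemma R.tr {A : Finset G} {g : G} (h : R A g) (z : G) : R (A.image fun x => x - z) (g - 3 • z) := by
  intro a ha b hb c hc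
  obtain ⟨a, ha', rfl⟩ := mem_image.1 ha
  obtain ⟨b, hb', rfl⟩ := mem_image.1 hb
  obtain ⟨c, hc', rfl⟩ := mem_image.1 hc
  intro h1 h2 h3 e
  refine h a ha' b hb' c hc' (fun e => h1 (by rw [e])) (fun e => h2 (by rw [e]))
    (fun e => h3 (by rw [e])) ?_
  rw [← sub_eq_zero, ← sub_eq_zero.2 e]
  abel

lemma cd3 {p : ℕ} [Fact p.Prime] {X Y Z : Finset (ZMod p)} (nX : X.Nonempty) (nY : Y.Nonempty)
    (nZ : Z.Nonempty) {g : ZMod p} (hn : ∀ x ∈ X, ∀ y ∈ Y, ∀ z ∈ Z, x + y + z ≠ g) :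
    X.card + Y.card + Z.card ≤ p + 1 := by
  obtain ⟨J, sJ, hJ, -, -, k1, k2⟩ := kn (g := g) sub_univ (sub_cs0 (subset_univ X))
    (sub_cs0 (subset_univ Y)) (sub_cs0 (subset_univ Z)) nX nY nZ (mem_univ _) hn
  have d := Per.dvd sJ _ _ rfl (sub_univ.per hJ)
  rw [card_univ, ZMod.card] at d k1
  have l1 := card_le_card (sub_add sJ X)
  have l2 := card_le_card (sub_add sJ Y)
  have l3 := card_le_card (sub_add sJ Z)
  have sp : 0 < (X + Y + Z).card := card_pos.2 ((nX.add nY).add nZ)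
  rcases (Nat.dvd_prime Fact.out).1 d with h | h <;> omega

/-- two removals cannot both leave a periodic set -/
lemma s2_two {A : Finset G} {a b g g' h0 : G} (h0n : h0 ≠ 0) (hb : b ∈ A) (hab : a ≠ b)
    (h1 : S2 (A.erase a) g h0) (h2 : S2 (A.erase b) g' h0) : False := by
  obtain ⟨J, sJ, -, hJ, -, pJ, -⟩ := h1
  obtain ⟨J', sJ', -, hJ', -, pJ', -⟩ := h2
  have e1 := pJ h0 hJ b (mem_erase.2 ⟨hab.symm, hb⟩)
  have e2 := pJ' _ (sJ'.neg hJ') (h0 + b) (mem_erase.2 ⟨by simpa using h0n, mem_of_mem_erase e1⟩)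
  simp at e2

lemma s3_four {A : Finset G} {h0 : G} (h0n : h0 ≠ 0) (cA : 2 ≤ A.card) (g : G → G)
    (u5 : ∀ H H' : Finset G, IsSub H → IsSub H' → H.card = 5 → H'.card = 5 → H = H')
    (h : ∀ a ∈ A, S2 (A.erase a) (g a) h0 ∨ S3 (A.erase a) (g a)) : False := by
  have pick : ∀ Y ⊆ A, 2 ≤ Y.card → ∃ a ∈ Y, S3 (A.erase a) (g a) := by
    intro Y hY c
    obtain ⟨a, ha, b, hb, hab⟩ := one_lt_card.1 c
    rcases h a (hY ha) with h1 | h1
    · rcases h b (hY hb) with h2 | h2
      · exact (s2_two h0n (hY hb) hab h1 h2).elim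
      · exact ⟨b, hb, h2⟩
    · exact ⟨a, ha, h1⟩
  obtain ⟨a, ha, H, sH, cH, w, w', hww, hw, hw', e, -⟩ := pick A Subset.rfl cA
  have four : ∀ (B : Finset G) (w w' x : G), w - w' ∉ H → B + H = insert w (insert w' B) →
      x ∈ B + H → 4 ≤ (B ∩ cs x H).card := by
    intro B w w' x hww e hx
    have h1 : cs x H ⊆ (B ∩ cs x H) ∪ (({w, w'} : Finset G) ∩ cs x H) := by
      intro y hy
      have := cs_sub sH hx hy
      rw [e] at this
      simp only [mem_insert, mem_union, mem_inter, mem_singleton] at this ⊢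
      tauto
    have h2 : (({w, w'} : Finset G) ∩ cs x H).card ≤ 1 := by
      rw [card_le_one]
      intro u hu v hv
      have := sH.sub (mem_cs.1 (mem_inter.1 hu).2) (mem_cs.1 (mem_inter.1 hv).2)
      have hu' := (mem_inter.1 hu).1
      have hv' := (mem_inter.1 hv).1
      simp only [mem_insert, mem_singleton] at hu' hv'
      rcases hu' with rfl | rfl <;> rcases hv' with rfl | rfl
      · rfl
      · exact absurd (memc this (by abel)) hww
      · exact absurd (memc (sH.neg this) (by abel)) hww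
      · rfl
    have h3 := (card_le_card h1).trans (card_union_le _ _)
    rw [card_cs] at h3
    omega
  obtain ⟨v, hv, hva, hvA⟩ : ∃ v ∈ A.erase a + H, v ≠ a ∧ v ∉ A.erase a := by
    by_cases h1 : w = a
    · refine ⟨w', by simp [e], fun h2 => hww ?_, hw'⟩
      rw [h1, h2, sub_self]; exact sH.zero
    · exact ⟨w, by simp [e], h1, hw⟩
  have c4 := four _ w w' v hww e hv
  obtain ⟨b, hb, H', sH', cH', u, u', huu, -, -, e', -⟩ :=
    pick (A.erase a ∩ cs v H) (inter_subset_left.trans (erase_subset _ _)) (by omega)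
  obtain rfl := u5 H H' sH sH' cH cH'
  obtain ⟨b', hb', hbb⟩ := exists_mem_ne (show 1 < (A.erase a ∩ cs v H).card by omega) b
  have m1 : v ∈ A.erase b + H := memc (add_mem_add
    (mem_erase.2 ⟨hbb, mem_of_mem_erase (mem_inter.1 hb').1⟩)
    (sH.neg (mem_cs.1 (mem_inter.1 hb').2))) (by abel)
  have c5 := four _ u u' v huu e' m1
  have v0 : v ∈ cs v H := mem_cs.2 (by simpa using sH.zero)
  have hvb : v ≠ b := fun e => hvA (e ▸ (mem_inter.1 hb).1)
  have s : A.erase b ∩ cs v H ⊆ ((cs v H).erase v).erase b := by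
    intro y hy
    obtain ⟨hy1, hy2⟩ := mem_inter.1 hy
    refine mem_erase.2 ⟨ne_of_mem_erase hy1, mem_erase.2 ⟨fun e => hvA ?_, hy2⟩⟩
    exact mem_erase.2 ⟨hva, e ▸ mem_of_mem_erase hy1⟩
  have := card_le_card s
  rw [card_erase_of_mem (mem_erase.2 ⟨hvb.symm, (mem_inter.1 hb).2⟩), card_erase_of_mem v0,
    card_cs] at this
  omega

end Pool.Agent.H.MP_e67b39_co
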