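import Pool.Agent.H.MP_e67b39_co.D

set_option linter.unusedSectionVars false

open Finset
open scoped Pointwise

namespace Pool.Agent.H.MP_e67b39_co

open Pool.Agent.Lib.helper8.Kneser

abbrev Gk (k : ℕ) := ZMod 3 × ZMod (3 * k)

variable {k : ℕ} [NeZero k]

lemma kpos : 0 < k := Nat.pos_of_ne_zero (NeZero.ne k)

lemma cardG : (univ : Finset (Gk k)).card = 3 * (3 * k) := by
  rw [card_univ, Fintype.card_prod, ZMod.card, ZMod.card]

def red (d : ℕ) (h : d ∣ 3 * k) : Gk k →+ ZMod d :=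
  (ZMod.castHom h (ZMod d)).toAddMonoidHom.comp (AddMonoidHom.snd _ _)

lemma red_nat {d : ℕ} (h : d ∣ 3 * k) (a : ZMod 3) (m : ℕ) :
    red d h (a, (m : ZMod (3 * k))) = (m : ZMod d) :=
  map_natCast (ZMod.castHom h (ZMod d)) m

lemma red_val {d : ℕ} (h : d ∣ 3 * k) (x : Gk k) : red d h x = (x.2.val : ZMod d) := by
  rw [← red_nat h x.1, ZMod.natCast_zmod_val]

lemma red_zero {d : ℕ} (h : d ∣ 3 * k) (x : Gk k) : red d h x = 0 ↔ d ∣ x.2.val := by
  rw [red_val, ZMod.natCast_eq_zero_iff]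

lemma red_surj {d : ℕ} [NeZero d] (h : d ∣ 3 * k) (a : ZMod 3) (y : ZMod d) :
    red d h (a, (y.val : ZMod (3 * k))) = y := by
  rw [red_nat, ZMod.natCast_zmod_val]

lemma red_fib {d : ℕ} [NeZero d] (h : d ∣ 3 * k) (y : ZMod d) :
    d * (univ.filter fun x => red d h x = y).card = 3 * (3 * k) := by
  have := fib (red d h) (fun y => ⟨_, red_surj h 0 y⟩) y
  rwa [ZMod.card, ← card_univ, cardG] at this

lemma exp0 (x : Gk k) : (3 * k) • x = 0 := by
  refine Prod.ext ?_ ?_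
  · rw [Prod.smul_fst, nsmul_eq_mul, Prod.fst_zero, Nat.cast_mul, ZMod.natCast_self]
    ring
  · rw [Prod.smul_snd, nsmul_eq_mul, Prod.snd_zero, ZMod.natCast_self, zero_mul]

lemma exp3 (j : ℕ) (x : Gk k) : (3 * k + j) • x = j • x := by rw [add_nsmul, exp0, zero_add]

def h0 (k : ℕ) : Gk k := (0, (k : ZMod (3 * k)))

lemma kne : (k : ZMod (3 * k)) ≠ 0 := by
  rw [Ne, ZMod.natCast_eq_zero_iff]
  intro h
  have := Nat.le_of_dvd kpos h
  have := kpos (k := k)
  omega

lemma h0ne : h0 k ≠ 0 := fun h => kne (congrArg Prod.snd h)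

lemma hU (t : Gk k) (h : 9 • t = 0) : 3 • t = 0 ∨ 3 • t = h0 k ∨ 3 • t = -h0 k := by
  have h3 : (3 : ZMod (3 * k)) * k = 0 := by exact_mod_cast ZMod.natCast_self (3 * k)
  have h2 : (k : ZMod (3 * k)) ≠ -k := fun e => kne (by linear_combination h3 - e)
  have e : ({0, (k : ZMod (3 * k)), -(k : ZMod (3 * k))} : Finset (ZMod (3 * k))) =
      univ.filter fun a => 3 • a = 0 := by
    refine eq_of_subset_of_card_le ?_ ?_
    · intro x hx
      simp only [mem_insert, mem_singleton] at hx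
      rcases hx with rfl | rfl | rfl <;> simp [h3]
    · rw [card_eq_three.2 ⟨_, _, _, kne.symm, (neg_ne_zero.2 kne).symm, h2, rfl⟩]
      exact IsAddCyclic.card_nsmul_eq_zero_le (by norm_num)
  have h1 : (3 • t).2 ∈ univ.filter fun a : ZMod (3 * k) => 3 • a = 0 := by
    refine mem_filter.2 ⟨mem_univ _, ?_⟩
    have := congrArg Prod.snd h
    simp only [Prod.smul_snd, Prod.snd_zero, smul_smul] at this ⊢
    exact this
  have h4 : (3 • t).1 = 0 := by
    simp only [Prod.smul_fst]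
    generalize t.1 = a
    revert a
    decide
  rw [← e] at h1
  simp only [mem_insert, mem_singleton] at h1
  rcases h1 with h1 | h1 | h1
  · exact Or.inl (Prod.ext h4 h1)
  · exact Or.inr (Or.inl (Prod.ext h4 h1))
  · exact Or.inr (Or.inr (Prod.ext (by rw [h4]; simp [h0]) h1))

lemma five {H : Finset (Gk k)} (sH : IsSub H) (cH : H.card = 5) :
    H = univ.filter fun x => 5 • x = 0 := by
  refine eq_of_subset_of_card_le (fun x hx => mem_filter.2 ⟨mem_univ _, cH ▸ card_nsmul0 sH hx⟩) ?_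
  rw [cH]
  refine le_trans (card_le_card_of_injOn Prod.snd ?_ ?_)
    (IsAddCyclic.card_nsmul_eq_zero_le (α := ZMod (3 * k)) (n := 5) (by norm_num))
  · intro x hx
    exact mem_filter.2 ⟨mem_univ _, congrArg Prod.snd (mem_filter.1 hx).2⟩
  · have h : ∀ a : ZMod 3, 5 • a = 0 → a = 0 := by decide
    intro x hx y hy e
    exact Prod.ext ((h _ (congrArg Prod.fst (mem_filter.1 hx).2)).trans
      (h _ (congrArg Prod.fst (mem_filter.1 hy).2)).symm) e

lemma main {A : Finset (Gk k)} (cA : A.card = 3 * k + 3) (hR : R A (∑ x ∈ A, x)) :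
    S1 univ A (∑ x ∈ A, x) ∨ S2 A (∑ x ∈ A, x) (h0 k) ∨ S3 A (∑ x ∈ A, x) := by
  set g := ∑ x ∈ A, x with hg
  obtain ⟨l, hs, hl⟩ : ∃ l : Gk k →+ ZMod 3, Function.Surjective l ∧ l g = 0 := by
    by_cases h : g.1 = 0
    · exact ⟨AddMonoidHom.fst _ _, fun a => ⟨(a, 0), rfl⟩, h⟩
    · refine ⟨red 3 (Dvd.intro _ rfl) - (AddMonoidHom.mulLeft (red 3 (Dvd.intro _ rfl) g * g.1)).comp
        (AddMonoidHom.fst _ _), fun a => ⟨(0, (a.val : ZMod (3 * k))), ?_⟩, ?_⟩
      · change red 3 _ _ - _ * 0 = a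
        rw [red_surj, mul_zero, sub_zero]
      · have : ∀ a b : ZMod 3, a ≠ 0 → b - b * a * a = 0 := by decide
        exact this _ _ h
  have hf : ∀ i, (univ.filter fun x => l x = i).card = 3 * k := by
    intro i
    have := fib l hs i
    rw [ZMod.card, ← card_univ, cardG] at this
    omega
  have := kpos (k := k)
  rcases struct sub_univ (subset_univ A) l (by omega) cardG hf (mem_univ g) hl cA.ge hR with h | h
  · exact Or.inl h
  · exact Or.inr (refine0 hU hR rfl h)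

lemma four {A : Finset (Gk k)} (cA : A.card = 3 * k + 4)
    (hR : ∀ a ∈ A, R (A.erase a) (∑ x ∈ A, x - a)) : False := by
  have cE : ∀ a ∈ A, (A.erase a).card = 3 * k + 3 := fun a ha => by
    rw [card_erase_of_mem ha, cA]; rfl
  have sE : ∀ a ∈ A, ∑ x ∈ A.erase a, x = ∑ x ∈ A, x - a := fun a ha => by
    rw [← sum_erase_add A (fun x => x) ha, add_sub_cancel_right]
  refine s3_four (A := A) h0ne (by omega) (fun a => ∑ x ∈ A, x - a)
    (fun H H' s s' c c' => (five s c).trans (five s' c').symm) fun a ha => ?_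
  have := main (cE a ha) (by rw [sE a ha]; exact hR a ha)
  rw [sE a ha] at this
  refine this.resolve_left fun h => s1four (a := a) cardG (cE a ha) (sE a ha)
    (fun x => by rw [cE a ha, exp3]) h fun b hb => ?_
  rw [sub_add_cancel]
  exact (hR b (mem_of_mem_erase hb)).mono (erase_subset_erase _ (erase_subset _ _))

lemma s1c {A : Finset (Gk k)} (cA : A.card = 3 * k + 3) (h : S1 univ A (∑ x ∈ A, x)) :
    ∃ d, d ∣ k ∧ d % 3 = 2 ∧ 5 ≤ d ∧
      ∀ x ∈ A, ∀ y ∈ A, ∀ z ∈ A, ¬ d ∣ (x + y + z - ∑ x ∈ A, x).2.val := by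
  obtain ⟨J, sJ, -, d, c, hd, hc, cB, k0, -⟩ := h
  obtain ⟨a, ha, b, hb, hab⟩ := two_cls sJ rfl (fun x => by rw [cA, exp3])
    (card_pos.1 (by omega)) k0
  have h1 := card_le_card (union_subset (cs_sub sJ (sub_add sJ A ha)) (cs_sub sJ (sub_add sJ A hb)))
  rw [card_union_of_disjoint (cs_disj sJ hab), card_cs, card_cs, cB] at h1
  have jp : 0 < J.card := card_pos.2 ⟨0, sJ.zero⟩
  have h2 : 2 ≤ c := Nat.le_of_mul_le_mul_left (by omega) jp
  have h3 : d % 3 = 2 := by omega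
  refine ⟨d, ?_, h3, by omega, fun x hx y hy z hz hdv => k0 x hx y hy z hz ?_⟩
  · have h4 : Nat.Coprime d 3 := by
      rw [Nat.coprime_comm, Nat.prime_three.coprime_iff_not_dvd]; omega
    refine h4.dvd_of_dvd_mul_left (h4.dvd_of_dvd_mul_left ?_)
    rw [← cardG, hd]
    exact Dvd.intro_left _ rfl
  · generalize x + y + z - ∑ x ∈ A, x = u at hdv
    obtain ⟨m, hm⟩ := hdv
    refine memc (idx sJ hd (2 * u.1, (m : ZMod (3 * k)))) (Prod.ext ?_ ?_)
    · have : (d : ZMod 3) = 2 := by rw [← ZMod.natCast_mod, h3]; rfl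
      rw [Prod.smul_fst, nsmul_eq_mul, this]
      change u.1 = 2 * (2 * u.1)
      generalize u.1 = a
      revert a
      decide
    · rw [Prod.smul_snd, nsmul_eq_mul, ← ZMod.natCast_zmod_val u.2, hm, Nat.cast_mul]

lemma s2_dvd {A : Finset (Gk k)} {g : Gk k} (h : S2 A g (h0 k)) : 3 ∣ k := by
  obtain ⟨J, -, -, hJ, h, -⟩ := h
  obtain ⟨s, hs⟩ := h _ hJ
  have := congrArg (red 3 (Dvd.intro k rfl)) hs
  rw [h0, red_nat, map_nsmul, nsmul_eq_mul, ZMod.natCast_self, zero_mul,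
    ZMod.natCast_eq_zero_iff] at this
  exact this

lemma s3_dvd {A : Finset (Gk k)} {g : Gk k} (h : S3 A g) : 5 ∣ k := by
  obtain ⟨H, sH, cH, -⟩ := h
  have := Per.dvd sH _ _ rfl (sub_univ.per (subset_univ H))
  rw [cH, cardG] at this
  omega

end Pool.Agent.H.MP_e67b39_co
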