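import Pool.Agent.H.MP_e67b39_co.E

set_option linter.unusedSectionVars false

open Finset
open scoped Pointwise

namespace Pool.Agent.H.MP_e67b39_co

open Pool.Agent.Lib.helper8.Kneser

variable {k : ℕ} [NeZero k]

lemma noSum {d : ℕ} (hd : d ∣ 3 * k) {A : Finset (Gk k)} {g : Gk k}
    (h : ∀ x ∈ A, ∀ y ∈ A, ∀ z ∈ A, ¬ d ∣ (x + y + z - g).2.val) :
    ∀ a ∈ A.image (red d hd), ∀ b ∈ A.image (red d hd), ∀ c ∈ A.image (red d hd),
      a + b + c ≠ red d hd g := by
  intro a ha b hb c hc e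
  obtain ⟨x, hx, rfl⟩ := mem_image.1 ha
  obtain ⟨y, hy, rfl⟩ := mem_image.1 hb
  obtain ⟨z, hz, rfl⟩ := mem_image.1 hc
  refine h x hx y hy z hz ((red_zero hd _).1 ?_)
  rw [map_sub, map_add, map_add, e, sub_self]

lemma e1 {p : ℕ} (pp : p.Prime) (hk : k = 2 * p) (h3 : p % 3 = 2) (h5 : 5 ≤ p)
    {A : Finset (Gk k)} (cA : A.card = 3 * k + 3)
    (h : ∀ x ∈ A, ∀ y ∈ A, ∀ z ∈ A, ¬ p ∣ (x + y + z - ∑ x ∈ A, x).2.val) : False := by
  haveI := Fact.mk pp
  have hd : p ∣ 3 * k := ⟨6, by omega⟩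
  have hN : ∀ y, (univ.filter fun x => red p hd x = y).card = 18 := fun y =>
    Nat.eq_of_mul_eq_mul_left pp.pos (by rw [red_fib]; omega)
  have hB := noSum hd h
  set B := A.image (red p hd) with eB
  have nB : B.Nonempty := (card_pos.1 (by omega)).image _
  have c1 := cd3 nB nB nB hB
  obtain ⟨c2, s2⟩ := pre (red p hd) hN B
  have hAF : A ⊆ univ.filter fun x => red p hd x ∈ B :=
    fun x hx => mem_filter.2 ⟨mem_univ _, mem_image_of_mem _ hx⟩
  have c3 := card_le_card hAF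
  have h9 := nine B _ (r := p / 3) (by omega) (by omega) (by omega) hB
  obtain ⟨u, v, w, huv, huw, hvw, e⟩ := card_eq_three.1
    (show ((univ.filter fun x => red p hd x ∈ B) \ A).card = 3 by
      have := card_sdiff_add_card_eq_card hAF
      omega)
  have m : ∀ x ∈ ({u, v, w} : Finset (Gk k)), red p hd x ∈ B := fun x hx => by
    rw [← e] at hx
    exact (mem_filter.1 (mem_sdiff.1 hx).1).2
  rw [← sum_sdiff hAF, e, sum_insert (by simp [huv, huw]), sum_pair hvw, ← map_sum,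
    nsmul_eq_mul] at s2
  refine hB _ (m u (by simp)) _ (m v (by simp)) _ (m w (by simp)) ?_
  push_cast at s2
  linear_combination s2 + 2 * h9

lemma z2 : ∀ a : ZMod 2, a = 0 ∨ a = 1 := by decide

lemma e2 {q : ℕ} (pp : q.Prime) (hk : k = 2 * q) (h3 : q % 3 = 1)
    {A : Finset (Gk k)} (cA : A.card = 3 * k + 3)
    (h : ∀ x ∈ A, ∀ y ∈ A, ∀ z ∈ A, ¬ 2 * q ∣ (x + y + z - ∑ x ∈ A, x).2.val) : False := by
  haveI := Fact.mk pp
  have ho : q % 2 = 1 := pp.eq_two_or_odd.resolve_left (by omega)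
  have hq : q ∣ 3 * k := ⟨6, by omega⟩
  have h2 : 2 ∣ 3 * k := ⟨3 * q, by omega⟩
  have hd : 2 * q ∣ 3 * k := ⟨3, by omega⟩
  haveI : NeZero (2 * q) := ⟨by have := pp.pos; omega⟩
  set g := ∑ x ∈ A, x with hg
  have crt : ∀ u, red 2 h2 u = 0 → red q hq u = 0 → 2 * q ∣ u.2.val := fun u a b =>
    Nat.Coprime.mul_dvd_of_dvd_of_dvd (by
      rw [Nat.prime_two.coprime_iff_not_dvd]; omega) ((red_zero _ _).1 a) ((red_zero _ _).1 b)
  have hN : ∀ y, (univ.filter fun x => red (2 * q) hd x = y).card = 9 := fun y =>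
    Nat.eq_of_mul_eq_mul_left (show 0 < 2 * q by have := pp.pos; omega) (by rw [red_fib]; omega)
  have bd : ∀ i, (A.filter fun x => red 2 h2 (x - g) = i).card ≤
      9 * ((A.filter fun x => red 2 h2 (x - g) = i).image (red q hq)).card := by
    intro i
    refine card_le_mul_card_image _ _ fun b hb => ?_
    obtain ⟨x, hx, rfl⟩ := mem_image.1 hb
    refine (card_le_card fun y hy => ?_).trans (hN (red _ hd x)).le
    obtain ⟨hy1, hy2⟩ := mem_filter.1 hy
    refine mem_filter.2 ⟨mem_univ _, ?_⟩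
    rw [← sub_eq_zero, ← map_sub, red_zero]
    refine crt _ ?_ (by rw [map_sub, hy2, sub_self])
    have e : y - x = (y - g) - (x - g) := by abel
    rw [e, map_sub, (mem_filter.1 hy1).2, (mem_filter.1 hx).2, sub_self]
  have ns : ∀ i j : ZMod 2, i = 0 →
      ∀ a ∈ (A.filter fun x => red 2 h2 (x - g) = i).image (red q hq),
      ∀ b ∈ (A.filter fun x => red 2 h2 (x - g) = j).image (red q hq),
      ∀ c ∈ (A.filter fun x => red 2 h2 (x - g) = j).image (red q hq),
        a + b + c ≠ red q hq g := by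
    intro i j hi a ha b hb c hc e
    obtain ⟨x, hx, rfl⟩ := mem_image.1 ha
    obtain ⟨y, hy, rfl⟩ := mem_image.1 hb
    obtain ⟨z, hz, rfl⟩ := mem_image.1 hc
    refine h x (mem_filter.1 hx).1 y (mem_filter.1 hy).1 z (mem_filter.1 hz).1 (crt _ ?_ ?_)
    · have e : x + y + z - g = (x - g) + (y - g) + (z - g) + (g + g) := by abel
      rw [e, map_add, map_add, map_add, map_add, (mem_filter.1 hx).2, (mem_filter.1 hy).2,
        (mem_filter.1 hz).2, hi]
      exact (by decide : ∀ j t : ZMod 2, 0 + j + j + (t + t) = 0) _ _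
    · rw [map_sub, map_add, map_add, e, sub_self]
  have tot := card_eq_sum_card_fiberwise (f := fun x => red 2 h2 (x - g)) (s := A) (t := univ)
    (by simp)
  have par := sum_fib (fun x => red 2 h2 (x - g)) A
  rw [← map_sum, sum_sub_distrib, sum_const, cA, exp3, ← hg,
    show g - 3 • g = -(g + g) by abel, map_neg, map_add, CharTwo.add_self_eq_zero, neg_zero] at par
  rw [show (univ : Finset (ZMod 2)) = {0, 1} from rfl, sum_pair (by decide)] at tot par
  rw [smul_zero, zero_add, nsmul_eq_mul, mul_one, eq_comm, ZMod.natCast_eq_zero_iff] at par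
  have b0 := bd 0
  have b1 := bd 1
  have n0 : ((A.filter fun x => red 2 h2 (x - g) = 0).image (red q hq)).Nonempty :=
    card_pos.1 (by omega)
  have c0 := cd3 n0 n0 n0 (ns 0 0 rfl)
  have n1 : ((A.filter fun x => red 2 h2 (x - g) = 1).image (red q hq)).Nonempty :=
    card_pos.1 (by omega)
  have c1 := cd3 n0 n1 n1 (ns 0 1 rfl)
  omega

lemma dec8 : ∀ B : Finset (ZMod 8), ∀ y : ZMod 8, 3 ≤ B.card →
    (∀ a ∈ B, ∀ b ∈ B, ∀ c ∈ B, a + b + c ≠ y) →
    B.card = 3 ∧ 9 • ∑ i ∈ B, i ≠ y ∨ ∀ b ∈ B, 4 * (b - y) = 4 := by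
  decide +kernel

lemma e3 (hk : k = 8) {A : Finset (Gk k)} (cA : A.card = 3 * k + 3)
    (h : ∀ x ∈ A, ∀ y ∈ A, ∀ z ∈ A, ¬ 8 ∣ (x + y + z - ∑ x ∈ A, x).2.val) : False := by
  have hd : 8 ∣ 3 * k := ⟨3, by omega⟩
  have hN : ∀ y, (univ.filter fun x => red 8 hd x = y).card = 9 := fun y => by
    have := red_fib hd y
    omega
  have hB := noSum hd h
  set B := A.image (red 8 hd) with eB
  obtain ⟨c2, s2⟩ := pre (red 8 hd) hN B
  have hAF : A ⊆ univ.filter fun x => red 8 hd x ∈ B :=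
    fun x hx => mem_filter.2 ⟨mem_univ _, mem_image_of_mem _ hx⟩
  have c3 := card_le_card hAF
  rcases dec8 B _ (by omega) hB with ⟨c4, c5⟩ | c4
  · rw [← eq_of_subset_of_card_le hAF (by omega), ← map_sum] at s2
    exact c5 s2.symm
  · have := sum_congr rfl fun x (hx : x ∈ A) => c4 _ (mem_image_of_mem _ hx)
    rw [← mul_sum, sum_sub_distrib, ← map_sum, sum_const, sum_const,
      show A.card = 27 by omega] at this
    exact (by decide : ∀ y : ZMod 8, 4 * (y - 27 • y) ≠ 27 • 4) _ this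

lemma norm {A : Finset (Gk k)} (cA : A.card = 3 * k + 3) (hR : R A (∑ x ∈ A, x))
    (h : S2 A (∑ x ∈ A, x) (h0 k)) : ∃ (A : Finset (Gk k)) (g : Gk k), A.card = 3 * k + 3 ∧
      ∑ x ∈ A, x = g ∧ R A g ∧ 0 ∈ A ∧ g.1 = 0 ∧ 3 • g = 0 ∧
      ∀ x ∈ A, ∀ y ∈ A, ∀ z ∈ A, x + y + z = g → 3 • (x - y) = 0 := by
  obtain ⟨J, sJ, cJ, -, h3, pJ, z, hz, hzg⟩ := h
  refine ⟨A.image fun x => x - z, _, by rw [card_image_of_injective _ sub_left_injective, cA], ?_,
    hR.tr z, mem_image.2 ⟨z, hz, sub_self _⟩, ?_, by simpa only [cJ] using card_nsmul0 sJ hzg, ?_⟩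
  · rw [sum_image fun _ _ _ _ h => sub_left_injective h, sum_sub_distrib, sum_const, cA, exp3]
  · obtain ⟨s, hs⟩ := h3 _ hzg
    rw [hs, Prod.smul_fst, nsmul_eq_mul, ZMod.natCast_self, zero_mul]
  · intro a ha b hb c hc e
    obtain ⟨a, ha', rfl⟩ := mem_image.1 ha
    obtain ⟨b, hb', rfl⟩ := mem_image.1 hb
    obtain ⟨c, hc', rfl⟩ := mem_image.1 hc
    have := diag sJ (by rw [pJ.add_eq sJ]; omega) hR (sub_add sJ _ ha') (sub_add sJ _ hb')
      (sub_add sJ _ hc') (memc sJ.zero (by rw [← sub_eq_zero.2 e]; abel))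
    rw [sub_sub_sub_cancel_right]
    simpa only [cJ] using card_nsmul0 sJ this

lemma pw3 (b : ℕ) : ∀ d, d ∣ 3 * 3 ^ (b + 1) → d ≠ 1 → 3 ∣ d := by
  intro d hd h1
  rw [← pow_succ', Nat.dvd_prime_pow Nat.prime_three] at hd
  obtain ⟨i, -, rfl⟩ := hd
  exact dvd_pow_self 3 (by rintro rfl; simp at h1)

section
variable {e b : ℕ} [NeZero e] (hk : k = e * 3 ^ b) (he : e ∣ 3 * k)
include hk

lemma cardQ : (univ.filter fun x => red e he x = 0).card = 3 * 3 ^ (b + 1) :=
  Nat.eq_of_mul_eq_mul_left (Nat.pos_of_ne_zero (NeZero.ne e)) (by rw [red_fib, hk]; ring)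

lemma a0_le {A : Finset (Gk k)} {g : Gk k} (hR : R A g) (h1 : g.1 = 0) (h2 : red e he g = 0) :
    (A.filter fun x => red e he x = 0).card ≤ 3 ^ (b + 1) + 3 := by
  by_contra hc
  have hf : ∀ i, ((univ.filter fun x => red e he x = 0).filter
      fun x => AddMonoidHom.fst (ZMod 3) (ZMod (3 * k)) x = i).card = 3 ^ (b + 1) := by
    intro i
    have := fib ((red e he).prod (AddMonoidHom.fst _ _))
      (fun y => ⟨(y.2, (y.1.val : ZMod (3 * k))), Prod.ext (red_surj he _ _) rfl⟩) (0, i)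
    rw [Fintype.card_prod, ZMod.card, ZMod.card, ← card_univ, cardG] at this
    rw [filter_filter]
    refine Nat.eq_of_mul_eq_mul_left (show 0 < e * 3 by
      have := Nat.pos_of_ne_zero (NeZero.ne e); omega) ?_
    refine Eq.trans ?_ (this.trans (by rw [hk]; ring))
    simp only [AddMonoidHom.prod_apply, Prod.mk.injEq]
  rcases struct (ker_sub (red e he)) (filter_subset_filter _ (subset_univ A)) _ (by positivity)
    (cardQ hk he) hf (mem_filter.2 ⟨mem_univ _, h2⟩) h1 (by omega)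
    (hR.mono (filter_subset _ _)) with ⟨J, -, -, d, c, hd, hc', -⟩ | ⟨h, -⟩
  · have := pw3 b d (by rw [← cardQ hk he, hd]; exact Dvd.intro_left _ rfl)
    omega
  · omega

lemma cls_le (A : Finset (Gk k)) (i : ZMod e) :
    (A.filter fun x => red e he x = i).card ≤ 3 * 3 ^ (b + 1) := by
  refine (card_le_card (filter_subset_filter _ (subset_univ A))).trans (le_of_eq ?_)
  exact Nat.eq_of_mul_eq_mul_left (Nat.pos_of_ne_zero (NeZero.ne e)) (by rw [red_fib, hk]; ring)

lemma k3c {A : Finset (Gk k)} {g : Gk k}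
    (hd : ∀ x ∈ A, ∀ y ∈ A, ∀ z ∈ A, x + y + z = g → red e he x = red e he y) (i j l : ZMod e)
    (hs : i + j + l = red e he g) (hij : i ≠ j) :
    (A.filter fun x => red e he x = i).card = 0 ∨ (A.filter fun x => red e he x = j).card = 0 ∨
    (A.filter fun x => red e he x = l).card = 0 ∨ ∃ h, 1 ≤ h ∧ h ≤ 3 ^ (b + 1) ∧
      (A.filter fun x => red e he x = i).card + (A.filter fun x => red e he x = j).card +
        (A.filter fun x => red e he x = l).card ≤ 3 * 3 ^ (b + 1) + h ∧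
      (3 ^ (b + 1) < (A.filter fun x => red e he x = j).card →
        (A.filter fun x => red e he x = i).card + (A.filter fun x => red e he x = l).card ≤
          2 * 3 ^ (b + 1)) ∧
      (3 ^ (b + 1) < (A.filter fun x => red e he x = j).card →
        3 ^ (b + 1) < (A.filter fun x => red e he x = l).card →
        (A.filter fun x => red e he x = i).card + h ≤ 3 ^ (b + 1)) := by
  refine or_iff_not_imp_left.2 fun n1 => or_iff_not_imp_left.2 fun n2 =>
    or_iff_not_imp_left.2 fun n3 => ?_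
  have hc : ∀ i, (A.filter fun x => red e he x = i) ⊆
      cs ((0, (i.val : ZMod (3 * k))) : Gk k) (univ.filter fun x => red e he x = 0) := by
    intro i x hx
    refine mem_cs.2 (mem_filter.2 ⟨mem_univ _, ?_⟩)
    rw [map_sub, red_surj, (mem_filter.1 hx).2, sub_self]
  refine k3g (g := g) (ker_sub _) (cardQ hk he) (pw3 b) (hc i) (hc j) (hc l)
    (card_pos.1 (by omega)) (card_pos.1 (by omega)) (card_pos.1 (by omega))
    (mem_filter.2 ⟨mem_univ _, ?_⟩) fun x hx y hy z hz e => hij ?_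
  · rw [map_sub, map_add, map_add, red_surj, red_surj, red_surj, hs, sub_self]
  · rw [← (mem_filter.1 hx).2, ← (mem_filter.1 hy).2]
    exact hd x (mem_filter.1 hx).1 y (mem_filter.1 hy).1 z (mem_filter.1 hz).1 e

end

lemma e4 {b : ℕ} (hk : k = 2 * 3 ^ b) {A : Finset (Gk k)} (cA : A.card = 3 * k + 3)
    (hR : R A (∑ x ∈ A, x)) (h : S2 A (∑ x ∈ A, x) (h0 k)) : False := by
  obtain ⟨A, g, cA, hs, hR, h0, h1, h3, hd⟩ := norm cA hR h
  have he : 2 ∣ 3 * k := ⟨3 * 3 ^ b, by omega⟩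
  have t : ∀ x : Gk k, 3 • x = 0 → red 2 he x = 0 := by
    intro x hx
    have := congrArg (red 2 he) hx
    rw [map_nsmul, map_zero] at this
    revert this
    generalize red 2 he x = a
    revert a
    decide
  have hd' : ∀ x ∈ A, ∀ y ∈ A, ∀ z ∈ A, x + y + z = g → red 2 he x = red 2 he y :=
    fun x hx y hy z hz e => by rw [← sub_eq_zero, ← map_sub]; exact t _ (hd x hx y hy z hz e)
  have tot := card_eq_sum_card_fiberwise (f := red 2 he) (s := A) (t := univ) (by simp)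
  have par := sum_fib (red 2 he) A
  rw [← map_sum, hs, t g h3] at par
  rw [show (univ : Finset (ZMod 2)) = {0, 1} from rfl, sum_pair (by decide)] at tot par
  rw [smul_zero, zero_add, nsmul_eq_mul, mul_one, eq_comm, ZMod.natCast_eq_zero_iff] at par
  have a0 := a0_le hk he hR h1 (t g h3)
  have p0 : 0 < (A.filter fun x => red 2 he x = 0).card :=
    card_pos.2 ⟨0, mem_filter.2 ⟨h0, map_zero _⟩⟩
  have f1 := k3c hk he hd' 0 1 1 (by rw [t g h3]; decide) (by decide)
  have o : 3 ^ (b + 1) % 2 = 1 := Nat.odd_iff.1 (Odd.pow (by decide))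
  have m : 3 ^ (b + 1) = 3 * 3 ^ b := by ring
  rcases f1 with f | f | f | ⟨h, f⟩ <;> omega

def FF (m x y z : ℕ) : Prop := x = 0 ∨ y = 0 ∨ z = 0 ∨ ∃ h, 1 ≤ h ∧ h ≤ m ∧ x + y + z ≤ 3 * m + h ∧
  (m < y → x + z ≤ 2 * m) ∧ (m < y → m < z → x + h ≤ m)

lemma ar {m a0 a1 a2 a3 : ℕ} (o : m % 2 = 1) (t : a0 + (a1 + (a2 + a3)) = 4 * m + 3)
    (p0 : 0 < a0) (l0 : a0 ≤ m + 3) (l1 : a1 ≤ 3 * m) (l3 : a3 ≤ 3 * m)
    (par : 4 ∣ a1 + 2 * a2 + 3 * a3) (f1 : FF m a0 a2 a2) (f2 : FF m a2 a1 a1) (f3 : FF m a2 a3 a3)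
    (f4 : FF m a0 a1 a3) (f5 : FF m a0 a3 a1) : False := by
  have g1 : m < a2 → a0 + a2 ≤ 2 * m := by rcases f1 with f | f | f | ⟨h, f⟩ <;> omega
  have g2 : a2 ≠ 0 → m < a1 → a2 + a1 ≤ 2 * m := by rcases f2 with f | f | f | ⟨h, f⟩ <;> omega
  have g3 : a2 ≠ 0 → m < a3 → a2 + a3 ≤ 2 * m := by rcases f3 with f | f | f | ⟨h, f⟩ <;> omega
  have g5 : a1 ≠ 0 → m < a3 → a0 + a1 ≤ 2 * m := by rcases f5 with f | f | f | ⟨h, f⟩ <;> omega
  clear f1 f2 f3 f5
  by_cases h2 : a2 = 0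
  · rcases f4 with f | f | f | ⟨h, f⟩
    · omega
    · have : a3 = 3 * m := by omega
      omega
    · have : a1 = 3 * m := by omega
      omega
    · omega
  by_cases h1 : m < a1 <;> by_cases h3 : m < a3
  · clear par o
    rcases f4 with f | f | f | ⟨h, f⟩ <;> omega
  · clear par o
    rcases f4 with f | f | f | ⟨h, f⟩ <;> omega
  · clear par o f4
    omega
  · have : a1 = m ∧ a2 = m ∧ a3 = m := by clear par o f4; omega
    omega

lemma e5 {b : ℕ} (hk : k = 4 * 3 ^ b) {A : Finset (Gk k)} (cA : A.card = 3 * k + 3)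
    (hR : R A (∑ x ∈ A, x)) (h : S2 A (∑ x ∈ A, x) (h0 k)) : False := by
  obtain ⟨A, g, cA, hs, hR, h0, h1, h3, hd⟩ := norm cA hR h
  have he : 4 ∣ 3 * k := ⟨3 * 3 ^ b, by omega⟩
  have t : ∀ x : Gk k, 3 • x = 0 → red 4 he x = 0 := by
    intro x hx
    have := congrArg (red 4 he) hx
    rw [map_nsmul, map_zero] at this
    revert this
    generalize red 4 he x = a
    revert a
    decide
  have hd' : ∀ x ∈ A, ∀ y ∈ A, ∀ z ∈ A, x + y + z = g → red 4 he x = red 4 he y :=
    fun x hx y hy z hz e => by rw [← sub_eq_zero, ← map_sub]; exact t _ (hd x hx y hy z hz e)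
  have tot := card_eq_sum_card_fiberwise (f := red 4 he) (s := A) (t := univ) (by simp)
  have par := sum_fib (red 4 he) A
  rw [← map_sum, hs, t g h3] at par
  rw [show (univ : Finset (ZMod 4)) = {0, 1, 2, 3} from rfl, sum_insert (by decide),
    sum_insert (by decide), sum_pair (by decide)] at tot par
  have par' : 4 ∣ (A.filter fun x => red 4 he x = 1).card +
      2 * (A.filter fun x => red 4 he x = 2).card + 3 * (A.filter fun x => red 4 he x = 3).card := by
    rw [← ZMod.natCast_eq_zero_iff, par]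
    push_cast
    simp only [nsmul_eq_mul]
    ring
  have a0 := a0_le hk he hR h1 (t g h3)
  have p0 : 0 < (A.filter fun x => red 4 he x = 0).card :=
    card_pos.2 ⟨0, mem_filter.2 ⟨h0, map_zero _⟩⟩
  have l1 := cls_le hk he A 1
  have l3 := cls_le hk he A 3
  have f1 := k3c hk he hd' 0 2 2 (by rw [t g h3]; decide) (by decide)
  have f2 := k3c hk he hd' 2 1 1 (by rw [t g h3]; decide) (by decide)
  have f3 := k3c hk he hd' 2 3 3 (by rw [t g h3]; decide) (by decide)
  have f4 := k3c hk he hd' 0 1 3 (by rw [t g h3]; decide) (by decide)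
  have f5 := k3c hk he hd' 0 3 1 (by rw [t g h3]; decide) (by decide)
  have o : 3 ^ (b + 1) % 2 = 1 := Nat.odd_iff.1 (Odd.pow (by decide))
  have m : 3 ^ (b + 1) = 3 * 3 ^ b := by ring
  exact ar o (by omega) p0 a0 l1 l3 par' f1 f2 f3 f4 f5

lemma e6 (hk : k = 10) {A : Finset (Gk k)} (cA : A.card = 3 * k + 3) {g : Gk k}
    (hR : R A g) (h : S3 A g) : False := by
  obtain ⟨H, sH, cH, w, w', hww, hw, hw', e, hg, hg'⟩ := h
  have he : 2 ∣ 3 * k := ⟨15, by omega⟩
  have hne : w ≠ w' := fun h => hww (by rw [h, sub_self]; exact sH.zero)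
  have cB : (A + H).card = 35 := by
    rw [e, card_insert_of_notMem (by simp [hne, hw]), card_insert_of_notMem hw']; omega
  have wB : w ∈ A + H := by simp [e]
  have h15 : ∀ u : Gk k, red 2 he u = 0 → 3 • u ∈ H := by
    intro u hu
    obtain ⟨s, hs⟩ := (red_zero he u).1 hu
    rw [five sH cH]
    refine mem_filter.2 ⟨mem_univ _, ?_⟩
    rw [smul_smul]
    refine Prod.ext ?_ ?_
    · rw [Prod.smul_fst]
      exact (by decide : ∀ a : ZMod 3, (5 * 3) • a = 0) _
    · rw [Prod.smul_snd, nsmul_eq_mul, ← ZMod.natCast_zmod_val u.2, hs, ← Nat.cast_mul,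
        Prod.snd_zero, ZMod.natCast_eq_zero_iff]
      exact ⟨s, by rw [hk]; ring⟩
  have b0 : ((A + H).filter fun x => red 2 he (x - w) = 0) ⊆ cs w H ∪ cs w' H := by
    intro x hx
    obtain ⟨hx1, hx2⟩ := mem_filter.1 hx
    by_contra hn
    rw [mem_union, not_or] at hn
    have s : cs x H ⊆ A := by
      intro y hy
      have := cs_sub sH hx1 hy
      rw [e, mem_insert, mem_insert] at this
      rcases this with rfl | rfl | h
      · exact absurd (mem_cs.2 (memc (sH.neg (mem_cs.1 hy)) (by abel))) hn.1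
      · exact absurd (mem_cs.2 (memc (sH.neg (mem_cs.1 hy)) (by abel))) hn.2
      · exact h
    have := (lemY sH Subset.rfl (c := x) (g := g) (memc (sH.neg (h15 _ hx2)) (by rw [hg]; abel))
      (by rw [card_cs]; omega) (hR.mono s)).1
    rw [card_cs] at this
    omega
  have c0 := (card_le_card b0).trans (card_union_le _ _)
  rw [card_cs, card_cs] at c0
  have tot := card_eq_sum_card_fiberwise (f := fun x => red 2 he (x - w)) (s := A + H) (t := univ)
    (by simp)
  rw [show (univ : Finset (ZMod 2)) = {0, 1} from rfl, sum_pair (by decide)] at tot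
  obtain ⟨c, hc⟩ := card_pos.1 (show 0 < ((A + H).filter fun x => red 2 he (x - w) = 1).card by
    omega)
  have s1 : ((A + H).filter fun x => red 2 he (x - w) = 1) ⊆
      cs c (univ.filter fun x => red 2 he x = 0) := by
    intro x hx
    refine mem_cs.2 (mem_filter.2 ⟨mem_univ _, ?_⟩)
    rw [show x - c = (x - w) - (c - w) by abel, map_sub, (mem_filter.1 hx).2, (mem_filter.1 hc).2,
      sub_self]
  have h1 := pair (ker_sub (red 2 he)) s1 s1 (s := w + w) (mem_filter.2 ⟨mem_univ _, by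
    rw [show w + w - c - c = -((c - w) + (c - w)) by abel, map_neg, map_add, (mem_filter.1 hc).2]
    decide⟩) (empty_subset _) (by simp)
  have h2 := red_fib he 0
  obtain ⟨x, hx⟩ := card_pos.1 (show 0 < (((A + H).filter fun x => red 2 he (x - w) = 1).filter
    fun x => w + w - x ∈ (A + H).filter fun x => red 2 he (x - w) = 1).card by omega)
  obtain ⟨hx1, hx2⟩ := mem_filter.1 hx
  have h3 := diag sH (by omega) hR (mem_filter.1 hx1).1 wB (mem_filter.1 hx2).1
    (memc sH.zero (by rw [hg]; abel))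
  have h4 := congrArg (red 2 he) (card_nsmul0 sH h3)
  rw [map_nsmul, (mem_filter.1 hx1).2, cH, map_zero] at h4
  exact absurd h4 (by decide)

/-- the exceptional values of `k` -/
def N (k : ℕ) : Prop :=
  (∀ p, p.Prime → p ∣ k → p % 3 = 1) ∨ (∃ b, k = 2 * 3 ^ b ∨ k = 4 * 3 ^ b) ∨
    (∃ p, p.Prime ∧ k = 2 * p) ∨ k = 8

lemma three (hN : N k) {A : Finset (Gk k)} (cA : A.card = 3 * k + 3) (hR : R A (∑ x ∈ A, x)) :
    False := by
  have pw : ∀ b d, d.Coprime 3 → (k = 2 * 3 ^ b ∨ k = 4 * 3 ^ b) → d ∣ k → d ≤ 4 := by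
    intro b d hc hk hd
    refine Nat.le_of_dvd (by norm_num) ((hc.pow_right b).dvd_of_dvd_mul_right (hd.trans ?_))
    rcases hk with hk | hk
    · exact ⟨2, by omega⟩
    · exact hk ▸ dvd_rfl
  rcases main cA hR with h | h | h
  · obtain ⟨d, hd, h3, h5, h⟩ := s1c cA h
    rcases hN with hN | ⟨b, hN⟩ | ⟨p, pp, hN⟩ | hN
    · obtain ⟨q, pq, hq, h2⟩ := ex_prime_mod (Or.inl ⟨rfl, rfl⟩) d h3
      have := hN q pq (hq.trans hd)
      omega
    · have := pw b d (by rw [Nat.coprime_comm, Nat.prime_three.coprime_iff_not_dvd]; omega) hN hd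
      omega
    · rw [hN] at hd
      obtain ⟨u, v, hu, hv, rfl⟩ := exists_dvd_and_dvd_of_dvd_mul hd
      rcases (Nat.dvd_prime pp).1 hv with rfl | rfl
      · have := Nat.le_of_dvd (by norm_num) hu
        omega
      rcases (Nat.dvd_prime Nat.prime_two).1 hu with rfl | rfl
      · rw [one_mul] at h3 h5 h
        exact e1 pp hN h3 h5 cA h
      · exact e2 pp hN (by omega) cA h
    · have h8 := Nat.le_of_dvd (by norm_num) (hN ▸ hd : d ∣ 8)
      have : d = 5 ∨ d = 8 := by omega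
      rcases this with rfl | rfl
      · omega
      · exact e3 hN cA h
  · have h3 := s2_dvd h
    rcases hN with hN | ⟨b, hN | hN⟩ | ⟨p, pp, hN⟩ | hN
    · exact absurd (hN 3 Nat.prime_three h3) (by decide)
    · exact e4 hN cA hR h
    · exact e5 hN cA hR h
    · have : 3 = p := (Nat.prime_dvd_prime_iff_eq Nat.prime_three pp).1 (by omega)
      exact e4 (b := 1) (by omega) cA hR h
    · omega
  · have h5 := s3_dvd h
    rcases hN with hN | ⟨b, hN⟩ | ⟨p, pp, hN⟩ | hN
    · exact absurd (hN 5 Nat.prime_five h5) (by decide)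
    · exact absurd (pw b 5 (by decide) hN h5) (by decide)
    · have : 5 = p := (Nat.prime_dvd_prime_iff_eq Nat.prime_five pp).1 (by omega)
      exact e6 (by omega) cA hR h
    · omega

end Pool.Agent.H.MP_e67b39_co
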