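import Pool.Agent.H.MP_e67b39_co.F

set_option linter.unusedSectionVars false

open Finset
open scoped Pointwise

namespace Pool.Agent.H.MP_e67b39_co

open Pool.Agent.Lib.helper8.Kneser

variable {k : ℕ} [NeZero k]

lemma embI {ι : Type} (s : Finset ι) (a : ι → ZMod 3) (b : ι → ℕ) (hb : ∀ i ∈ s, b i < 3 * k)
    (inj : ∀ i ∈ s, ∀ j ∈ s, a i = a j → b i = b j → i = j) :
    (s.image fun i => ((a i, (b i : ZMod (3 * k))) : Gk k)).card = s.card ∧
      ∑ x ∈ s.image fun i => ((a i, (b i : ZMod (3 * k))) : Gk k), x =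
        (∑ i ∈ s, a i, ((∑ i ∈ s, b i : ℕ) : ZMod (3 * k))) := by
  have h : Set.InjOn (fun i => ((a i, (b i : ZMod (3 * k))) : Gk k)) s := by
    intro i hi j hj e
    refine inj i hi j hj (congrArg Prod.fst e) ?_
    have := congrArg (fun x : Gk k => x.2.val) e
    simpa only [ZMod.val_cast_of_lt (hb i hi), ZMod.val_cast_of_lt (hb j hj)] using this
  refine ⟨card_image_of_injOn h, ?_⟩
  rw [sum_image h, Nat.cast_sum]
  exact Prod.ext (Prod.fst_sum) (Prod.snd_sum)

lemma lift3 {d e : ℕ} (hk : k = d * (e + 1)) (B : Finset ℕ) (hB : ∀ b ∈ B, b < d)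
    (cB : 3 * B.card = d + 1) (h : ∀ a ∈ B, ∀ b ∈ B, ∀ c ∈ B, ¬ d ∣ a + b + c + 1)
    (f : ℕ → ℕ) (hf : ∀ i, f i ∈ B)
    (hs : ((9 * (e + 1) * ∑ b ∈ B, b + 1 : ℕ) : ZMod d) = (∑ i ∈ range (3 * e), f i : ℕ)) :
    ∃ A : Finset (Gk k), A.card = 3 * k + 3 ∧ R A (∑ x ∈ A, x) := by
  have d0 : 0 < d := lt_of_le_of_lt (Nat.zero_le _) (hB _ (hf 0))
  haveI : NeZero d := ⟨d0.ne'⟩
  have hd : d ∣ 3 * k := ⟨3 * (e + 1), by rw [hk]; ring⟩
  have hN : ∀ y, (univ.filter fun x => red d hd x = y).card = 9 * (e + 1) := fun y =>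
    Nat.eq_of_mul_eq_mul_left d0 (by rw [red_fib, hk]; ring)
  have hi : Set.InjOn (Nat.cast : ℕ → ZMod d) B := fun a ha b hb e => by
    simpa only [ZMod.val_cast_of_lt (hB a ha), ZMod.val_cast_of_lt (hB b hb)] using
      congrArg ZMod.val e
  obtain ⟨c1, s1⟩ := pre (red d hd) hN (B.image Nat.cast)
  rw [card_image_of_injOn hi] at c1
  rw [sum_image hi] at s1
  obtain ⟨c2, s2⟩ := embI (k := k) (range (3 * e)) (fun _ => 0) (fun i => f i + d * i) (by
    intro i hi
    have := hB _ (hf i)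
    have := mem_range.1 hi
    rw [hk]; nlinarith) (by
    intro i _ j _ _ e
    have := congrArg (· / d) e
    simpa only [Nat.add_mul_div_left _ _ d0, Nat.div_eq_of_lt (hB _ (hf _)), zero_add] using this)
  set W := (range (3 * e)).image fun i => (((0 : ZMod 3), ((f i + d * i : ℕ) : ZMod (3 * k))) : Gk k)
  have hW : W ⊆ univ.filter fun x => red d hd x ∈ B.image Nat.cast := by
    intro x hx
    obtain ⟨i, -, rfl⟩ := mem_image.1 hx
    refine mem_filter.2 ⟨mem_univ _, mem_image.2 ⟨f i, hf i, ?_⟩⟩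
    rw [red_nat]; simp
  refine ⟨(univ.filter fun x => red d hd x ∈ B.image Nat.cast) \ W, ?_, ?_⟩
  · have := card_sdiff_add_card_eq_card hW
    rw [c1, c2, card_range] at this
    have h1 : 9 * (e + 1) * B.card = 3 * k + 3 * (e + 1) := by
      rw [hk]; linear_combination 3 * (e + 1) * cB
    linarith
  · intro x hx y hy z hz _ _ _ e
    obtain ⟨a, ha, ea⟩ := mem_image.1 (mem_filter.1 (mem_sdiff.1 hx).1).2
    obtain ⟨b, hb, eb⟩ := mem_image.1 (mem_filter.1 (mem_sdiff.1 hy).1).2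
    obtain ⟨c, hc, ec⟩ := mem_image.1 (mem_filter.1 (mem_sdiff.1 hz).1).2
    refine h a ha b hb c hc ((ZMod.natCast_eq_zero_iff _ _).1 ?_)
    have e2 := congrArg (red d hd) e
    rw [map_add, map_add, ← ea, ← eb, ← ec, map_sum] at e2
    rw [← sum_sdiff hW, ← e2, ← map_sum, s2, red_nat, sum_add_distrib, ← mul_sum,
      nsmul_eq_mul] at s1
    push_cast at s1 hs ⊢
    rw [ZMod.natCast_self] at s1
    linear_combination s1 + hs

lemma split (M t N : ℕ) : ∑ i ∈ range N, min M (t - i * M) = min (N * M) t := by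
  induction N with
  | zero => simp
  | succ N ih => rw [sum_range_succ, ih, Nat.succ_mul]; omega

lemma gen {d e : ℕ} (hk : k = d * (e + 1)) (h3 : d % 3 = 2) (h5 : 5 ≤ d)
    (he : 2 ≤ e ∨ e = 0 ∧ d % 2 = 1) :
    ∃ A : Finset (Gk k), A.card = 3 * k + 3 ∧ R A (∑ x ∈ A, x) := by
  obtain ⟨c, hc⟩ : ∃ c, d = 3 * c + 2 := ⟨d / 3, by omega⟩
  refine lift3 hk (range (c + 1)) (fun b hb => by have := mem_range.1 hb; omega)
    (by rw [card_range]; omega) (fun a ha b hb c hc h => ?_)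
    (fun i => min c ((9 * (e + 1) * ∑ b ∈ range (c + 1), b + 1) % d - i * c))
    (fun i => mem_range.2 (by omega)) ?_
  · have := Nat.le_of_dvd (by omega) h
    have := mem_range.1 ha
    have := mem_range.1 hb
    have := mem_range.1 hc
    omega
  · rw [split]
    rcases he with he | ⟨rfl, he⟩
    · have := Nat.mod_lt (9 * (e + 1) * ∑ b ∈ range (c + 1), b + 1) (show 0 < d by omega)
      rw [min_eq_right (by nlinarith), ZMod.natCast_mod]
    · obtain ⟨s, rfl⟩ : ∃ s, c = 2 * s + 1 := ⟨c / 2, by omega⟩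
      have h1 := sum_range_id_mul_two (2 * s + 1 + 1)
      rw [Nat.add_sub_cancel] at h1
      rw [mul_zero, zero_mul, min_eq_left (Nat.zero_le _), Nat.cast_zero, ZMod.natCast_eq_zero_iff]
      exact ⟨3 * s + 2, by rw [hc]; nlinarith⟩

lemma spec {r : ℕ} (hk : k = (6 * r + 2) * (1 + 1)) (hr : 1 ≤ r) :
    ∃ A : Finset (Gk k), A.card = 3 * k + 3 ∧ R A (∑ x ∈ A, x) := by
  have dj : Disjoint (range (r + 1)) ((range r).image (· + (3 * r + 1))) := by
    rw [disjoint_left]
    intro x hx hx'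
    obtain ⟨y, -, rfl⟩ := mem_image.1 hx'
    have := mem_range.1 hx
    omega
  have m : ∀ b ∈ range (r + 1) ∪ (range r).image (· + (3 * r + 1)),
      b ≤ r ∨ 3 * r + 1 ≤ b ∧ b ≤ 4 * r := by
    intro b hb
    rcases mem_union.1 hb with h | h
    · have := mem_range.1 h; omega
    · obtain ⟨y, hy, rfl⟩ := mem_image.1 h
      have := mem_range.1 hy; omega
  refine lift3 hk (range (r + 1) ∪ (range r).image (· + (3 * r + 1)))
    (fun b hb => by have := m b hb; omega) ?_ (fun a ha b hb c hc ⟨u, hu⟩ => ?_) (fun _ => 1)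
    (fun _ => mem_union_left _ (mem_range.2 (by omega))) ?_
  · rw [card_union_of_disjoint dj, card_image_of_injective _ (add_left_injective _), card_range,
      card_range]
    omega
  · have := m a ha
    have := m b hb
    have := m c hc
    have h1 : u < 2 := Nat.lt_of_mul_lt_mul_left (a := 6 * r + 2) (by omega)
    interval_cases u <;> omega
  · obtain ⟨s, rfl⟩ : ∃ s, r = s + 1 := ⟨r - 1, by omega⟩
    have h1 := sum_range_id_mul_two (s + 1)
    rw [Nat.add_sub_cancel] at h1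
    rw [sum_union dj, sum_image fun _ _ _ _ h => add_left_injective _ h, sum_add_distrib,
      sum_range_succ _ (s + 1), sum_const, sum_const, card_range, card_range, smul_eq_mul,
      smul_eq_mul, ZMod.natCast_eq_natCast_iff, Nat.ModEq.comm, Nat.modEq_iff_dvd' (by omega)]
    exact ⟨12 * s + 11, by
      rw [Nat.sub_eq_iff_eq_add (by omega)]
      nlinarith⟩

lemma odd3 {s : ℕ} (hk : k = 3 * (2 * s + 1)) :
    ∃ A : Finset (Gk k), A.card = 3 * k + 3 ∧ R A (∑ x ∈ A, x) := by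
  set l := 2 * s + 1 with hl
  set D : Finset (ZMod 3 × ℕ) := (univ ×ˢ range (l + 1)) \ {(2, 0), (2, l)} with hD
  have sD : ({(2, 0), (2, l)} : Finset (ZMod 3 × ℕ)) ⊆ univ ×ˢ range (l + 1) := by
    intro x hx
    simp only [mem_insert, mem_singleton] at hx
    rcases hx with rfl | rfl <;> simp
  have ne : ((2, 0) : ZMod 3 × ℕ) ≠ (2, l) := by simp [hl]
  have cD : D.card = 3 * l + 1 := by
    have := card_sdiff_add_card_eq_card sD
    rw [card_pair ne, card_product, card_range, card_univ, ZMod.card, ← hD] at this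
    omega
  have mD : ∀ p ∈ D, p.2 ≤ l ∧ (p.2 = 0 ∨ p.2 = l → p.1 ≠ 2) := by
    rintro ⟨a, b⟩ hp
    simp only [hD, mem_sdiff, mem_product, mem_range, mem_insert, mem_singleton, Prod.mk.injEq]
      at hp
    exact ⟨by omega, by tauto⟩
  have s0 : ∑ p ∈ D, p.2 + l = 3 * (l * (s + 1)) := by
    have := sum_sdiff (f := fun p : ZMod 3 × ℕ => p.2) sD
    rw [sum_pair ne, sum_product, ← hD] at this
    have h1 := sum_range_id_mul_two (l + 1)
    rw [Nat.add_sub_cancel] at h1
    simp only [sum_const, card_univ, ZMod.card, smul_eq_mul] at this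
    nlinarith
  have k0 := kpos (k := k)
  obtain ⟨c2, s2⟩ := embI (k := k) (D ×ˢ range 3) (fun q => q.1.1) (fun q => q.1.2 + k * q.2) (by
    intro q hq
    have := (mD _ (mem_product.1 hq).1).1
    have := mem_range.1 (mem_product.1 hq).2
    nlinarith) (by
    intro q hq q' hq' e1 e2
    have h1 : q.1.2 < k := by have := (mD _ (mem_product.1 hq).1).1; omega
    have h2 : q'.1.2 < k := by have := (mD _ (mem_product.1 hq').1).1; omega
    have e3 := congrArg (· / k) e2
    simp only [Nat.add_mul_div_left _ _ k0, Nat.div_eq_of_lt h1, Nat.div_eq_of_lt h2,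
      zero_add] at e3
    rw [e3] at e2
    exact Prod.ext (Prod.ext e1 (by omega)) e3)
  refine ⟨_, c2.trans (by rw [card_product, cD, card_range]; omega), ?_⟩
  rw [s2]
  intro x hx y hy z hz hxy hxz hyz e
  obtain ⟨⟨⟨a1, r1⟩, i1⟩, h1, rfl⟩ := mem_image.1 hx
  obtain ⟨⟨⟨a2, r2⟩, i2⟩, h2, rfl⟩ := mem_image.1 hy
  obtain ⟨⟨⟨a3, r3⟩, i3⟩, h3, rfl⟩ := mem_image.1 hz
  have m1 := mD _ (mem_product.1 h1).1
  have m2 := mD _ (mem_product.1 h2).1
  have m3 := mD _ (mem_product.1 h3).1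
  have n1 := mem_range.1 (mem_product.1 h1).2
  have n2 := mem_range.1 (mem_product.1 h2).2
  have n3 := mem_range.1 (mem_product.1 h3).2
  have e1 : a1 + a2 + a3 = 0 := by
    refine (congrArg Prod.fst e).trans ?_
    simp only [sum_product, sum_const, card_range]
    exact sum_eq_zero fun p _ => (by decide : ∀ a : ZMod 3, 3 • a = 0) _
  have e2 : 3 * k ∣ r1 + r2 + r3 + k * (i1 + i2 + i3 + 1) := by
    rw [← ZMod.natCast_eq_zero_iff]
    have e3 : ((r1 + k * i1 : ℕ) : ZMod (3 * k)) + (r2 + k * i2 : ℕ) + (r3 + k * i3 : ℕ) = _ :=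
      congrArg Prod.snd e
    dsimp only at e3
    have e4 : ∑ q ∈ D ×ˢ range 3, (q.1.2 + k * q.2) + k = 3 * k * (s + 1 + D.card) := by
      simp only [sum_product, sum_range_succ, range_zero, sum_empty]
      rw [sum_congr rfl fun p _ => show _ = 3 * p.2 + 3 * k by ring, sum_add_distrib, ← mul_sum,
        sum_const, smul_eq_mul]
      nlinarith
    have e5 := congrArg (Nat.cast : ℕ → ZMod (3 * k)) e4
    rw [Nat.cast_mul, ZMod.natCast_self, zero_mul, Nat.cast_add, ← e3] at e5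
    push_cast at e5 ⊢
    linear_combination e5
  simp only at m1 m2 m3 n1 n2 n3
  have e3 : k ∣ r1 + r2 + r3 :=
    (Nat.dvd_add_left (Dvd.intro _ rfl)).1 ((Dvd.intro_left 3 rfl).trans e2)
  have e4 : r1 = r2 ∧ r1 = r3 ∧ (r1 = 0 ∨ r1 = l) := by
    rcases Nat.eq_zero_or_pos (r1 + r2 + r3) with h | h
    · omega
    · have := Nat.le_of_dvd h e3
      omega
  obtain ⟨rfl, rfl, e5⟩ := e4
  obtain ⟨rfl, rfl⟩ := (by decide : ∀ a b c : ZMod 3, a ≠ 2 → b ≠ 2 → c ≠ 2 → a + b + c = 0 →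
    a = b ∧ a = c) _ _ _ (m1.2 e5) (m2.2 e5) (m3.2 e5) e1
  have i12 : i1 ≠ i2 := fun h => hxy (by rw [h])
  have i13 : i1 ≠ i3 := fun h => hxz (by rw [h])
  have i23 : i2 ≠ i3 := fun h => hyz (by rw [h])
  rw [show i1 + i2 + i3 + 1 = 3 + 1 by omega, mul_add, mul_comm k 3, add_comm (3 * k), ← add_assoc,
    Nat.dvd_add_self_right] at e2
  have := Nat.le_of_dvd (by omega) e2
  omega

lemma yes (h2 : 2 ≤ k) (hN : ¬ N k) :
    ∃ A : Finset (Gk k), A.card = 3 * k + 3 ∧ R A (∑ x ∈ A, x) := by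
  simp only [N, not_or, not_forall, not_exists, not_and] at hN
  obtain ⟨⟨p, pp, hp, h1⟩, n2, n3, n4⟩ := hN
  have succ : ∀ d, d ∣ k → ∃ e, k = d * (e + 1) := by
    rintro d ⟨e, he⟩
    refine ⟨e - 1, ?_⟩
    rw [Nat.sub_add_cancel (Nat.pos_of_ne_zero (by rintro rfl; omega)), he]
  rcases Nat.mod_two_eq_zero_or_one k with ev | od
  · by_cases c1 : ∃ p, p.Prime ∧ p ∣ k ∧ p % 3 = 2 ∧ p ≠ 2
    · obtain ⟨p, pp, hp, h3, hp2⟩ := c1
      obtain ⟨e, he⟩ := succ p hp
      have ho := pp.eq_two_or_odd.resolve_left hp2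
      have := pp.two_le
      refine gen he h3 (by omega) (Or.inl ?_)
      by_contra hc
      have : e = 0 ∨ e = 1 := by omega
      rcases this with rfl | rfl
      · omega
      · exact n3 p pp (by omega)
    by_cases c2 : ∃ q, q.Prime ∧ q ∣ k ∧ q % 3 = 1
    · obtain ⟨q, pq, hq, h3⟩ := c2
      have ho := pq.eq_two_or_odd.resolve_left (by omega)
      have := pq.two_le
      obtain ⟨e, he⟩ := succ (2 * q) (Nat.Coprime.mul_dvd_of_dvd_of_dvd (by
        rw [Nat.prime_two.coprime_iff_not_dvd]; omega) (by omega) hq)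
      by_cases he2 : 2 ≤ e
      · exact gen he (by omega) (by omega) (Or.inl he2)
      have : e = 0 ∨ e = 1 := by omega
      rcases this with rfl | rfl
      · exact absurd (by omega) (n3 q pq)
      · exact spec (r := q / 3) (by omega) (by omega)
    have only : ∀ m, m ∣ k → m % 2 = 1 → ∃ b, m = 3 ^ b := by
      intro m hm ho
      refine ⟨_, Nat.eq_prime_pow_of_unique_prime_dvd (by omega) fun {d} pd hd => ?_⟩
      by_contra h3
      have d2 : d ≠ 2 := by rintro rfl; omega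
      have d0 : d % 3 ≠ 0 := fun h =>
        h3 ((Nat.prime_dvd_prime_iff_eq Nat.prime_three pd).1 (by omega)).symm
      have d1 : d % 3 ≠ 1 := fun h => c2 ⟨d, pd, hd.trans hm, h⟩
      exact c1 ⟨d, pd, hd.trans hm, by omega, d2⟩
    by_cases c8 : 8 ∣ k
    · obtain ⟨e, he⟩ := succ 8 c8
      by_cases he2 : 2 ≤ e
      · exact gen he (by omega) (by omega) (Or.inl he2)
      · exact spec (r := 1) (by omega) le_rfl
    by_cases c4 : 4 ∣ k
    · obtain ⟨b, hb⟩ := only (k / 4) (Nat.div_dvd_of_dvd c4) (by omega)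
      exact absurd (by omega) (n2 b).2
    · obtain ⟨b, hb⟩ := only (k / 2) (Nat.div_dvd_of_dvd (by omega)) (by omega)
      exact absurd (by omega) (n2 b).1
  · by_cases c3 : 3 ∣ k
    · exact odd3 (s := k / 6) (by omega)
    have p2 : p ≠ 2 := by rintro rfl; omega
    have p0 : p % 3 ≠ 0 := fun h => c3 (dvd_trans (by omega) hp)
    have ho := pp.eq_two_or_odd.resolve_left p2
    have := pp.two_le
    obtain ⟨e, he⟩ := succ p hp
    refine gen he (by omega) (by omega) ?_
    have : e ≠ 1 := by rintro rfl; omega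
    omega

lemma two (h2 : 2 ≤ k) : ∃ A : Finset (Gk k), A.card = 3 * k + 2 ∧
    ∀ a ∈ A, ∀ b ∈ A, a ≠ b → a + b ≠ ∑ x ∈ A, x := by
  rcases Nat.mod_two_eq_zero_or_one k with ev | od
  · have dj : Disjoint (({0} : Finset (ZMod 3)) ×ˢ range (3 * k)) ({1} ×ˢ range 2) := by
      rw [disjoint_left]
      intro x hx hx'
      exact absurd ((mem_singleton.1 (mem_product.1 hx).1).symm.trans
        (mem_singleton.1 (mem_product.1 hx').1)) (by decide)
    have m : ∀ p ∈ (({0} : Finset (ZMod 3)) ×ˢ range (3 * k)) ∪ ({1} ×ˢ range 2),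
        p.1 = 0 ∧ p.2 < 3 * k ∨ p.1 = 1 ∧ p.2 < 2 := by
      intro p hp
      simpa only [mem_union, mem_product, mem_singleton, mem_range] using hp
    obtain ⟨c2, s2⟩ := embI (k := k) ((({0} : Finset (ZMod 3)) ×ˢ range (3 * k)) ∪ ({1} ×ˢ range 2))
      Prod.fst Prod.snd (fun p hp => by have := m p hp; omega) fun _ _ _ _ => Prod.ext
    refine ⟨_, c2.trans (by rw [card_union_of_disjoint dj]; simp), ?_⟩
    rw [s2, sum_union dj, sum_union dj]
    intro x hx y hy hxy e
    obtain ⟨⟨a1, r1⟩, h1, rfl⟩ := mem_image.1 hx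
    obtain ⟨⟨a2, r2⟩, h2, rfl⟩ := mem_image.1 hy
    have e1 : a1 + a2 = 2 := by
      refine (congrArg Prod.fst e).trans ?_
      simp [sum_product]
    have e2 : (r1 : ZMod (3 * k)) + r2 = _ := congrArg Prod.snd e
    have hh : ∀ a b : ZMod 3, a = 0 ∨ a = 1 → b = 0 ∨ b = 1 → a + b = 2 → a = 1 ∧ b = 1 := by
      decide
    obtain ⟨rfl, rfl⟩ := hh _ _ ((m _ h1).imp And.left And.left) ((m _ h2).imp And.left And.left) e1
    have l1 : r1 < 2 := ((m _ h1).resolve_left fun h => one_ne_zero h.1).2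
    have l2 : r2 < 2 := ((m _ h2).resolve_left fun h => one_ne_zero h.1).2
    have ne : r1 ≠ r2 := fun h => hxy (by rw [h])
    simp only [sum_product, sum_singleton, sum_range_succ, range_zero, sum_empty] at e2
    rw [← Nat.cast_add, show r1 + r2 = 0 + 0 + 1 by omega, Nat.cast_add (∑ _ ∈ _, _),
      right_eq_add, ZMod.natCast_eq_zero_iff] at e2
    obtain ⟨u, hu⟩ := e2
    have h3 := sum_range_id_mul_two (3 * k)
    rw [hu, mul_assoc] at h3
    have := Nat.eq_of_mul_eq_mul_left (by omega) h3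
    omega
  · have m0 : ((0, 1) : ZMod 3 × ℕ) ∈ univ ×ˢ range (k + 1) := by simp; omega
    obtain ⟨c2, s2⟩ := embI (k := k) ((univ ×ˢ range (k + 1)).erase (0, 1)) Prod.fst Prod.snd
      (fun p hp => by have := mem_range.1 (mem_product.1 (mem_of_mem_erase hp)).2; omega)
      fun _ _ _ _ => Prod.ext
    refine ⟨_, c2.trans (by
      rw [card_erase_of_mem m0, card_product, card_range, card_univ, ZMod.card]; omega), ?_⟩
    rw [s2]
    intro x hx y hy _ e
    obtain ⟨⟨a1, r1⟩, h1, rfl⟩ := mem_image.1 hx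
    obtain ⟨⟨a2, r2⟩, h2, rfl⟩ := mem_image.1 hy
    have l1 : r1 < k + 1 := mem_range.1 (mem_product.1 (mem_of_mem_erase h1)).2
    have l2 : r2 < k + 1 := mem_range.1 (mem_product.1 (mem_of_mem_erase h2)).2
    have e2 : (r1 : ZMod (3 * k)) + r2 = _ := congrArg Prod.snd e
    dsimp only at e2
    have e3 := sum_erase_add _ (fun p : ZMod 3 × ℕ => p.2) m0
    have h3 := sum_range_id_mul_two (k + 1)
    rw [Nat.add_sub_cancel] at h3
    rw [sum_product] at e3
    simp only [sum_const, card_univ, ZMod.card, smul_eq_mul] at e3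
    obtain ⟨t, ht⟩ : ∃ t, k + 1 = 2 * t := ⟨(k + 1) / 2, by omega⟩
    have e4 : 3 * ∑ i ∈ range (k + 1), i = 3 * k * t := by nlinarith
    have e5 := congrArg (Nat.cast : ℕ → ZMod (3 * k)) (e3.trans e4)
    rw [Nat.cast_mul, ZMod.natCast_self, zero_mul, Nat.cast_add, ← e2, ← Nat.cast_add,
      ← Nat.cast_add, ZMod.natCast_eq_zero_iff] at e5
    have := Nat.le_of_dvd (by omega) e5
    omega

end Pool.Agent.H.MP_e67b39_co
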